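import Pool.Agent.H25.Zir.Rank

/-!
# Core definitions of the zircon project, type A (dual right version)

Conventions: `Perm (Fin n)`, `y : Perm (Fin n)` is read as the word `y 0, y 1, ..., y (n-1)`.
Right multiplication by `swap a b` exchanges the entries in positions `a` and `b`.
`Le y z` is the Bruhat order (rank criterion, file Rank).
-/

namespace Pool.Agent.H25.Zir

open Equiv Finset

variable {n : ℕ}

/-- number of inversions -/
def len (y : Perm (Fin n)) : ℕ :=
  ((univ : Finset (Fin n × Fin n)).filter (fun p => p.1 < p.2 ∧ y p.2 < y p.1)).card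

/-- order-theoretic cover for the rank order -/
def Cov (y z : Perm (Fin n)) : Prop :=
  Le y z ∧ y ≠ z ∧ ∀ w, Le y w → Le w z → w = y ∨ w = z

/-- joined by a transposition -/
def Jn (p q : Perm (Fin n)) : Prop := ∃ a b : Fin n, a ≠ b ∧ q = p * swap a b

/-- `M` is a special matching of the interval `[y, v]` -/
structure SM (y v : Perm (Fin n)) (M : Perm (Fin n) → Perm (Fin n)) : Prop where
  maps : ∀ x, Le y x → Le x v → Le y (M x) ∧ Le (M x) v
  invol : ∀ x, Le y x → Le x v → M (M x) = x
  cov : ∀ x, Le y x → Le x v → Cov x (M x) ∨ Cov (M x) x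
  spec : ∀ x z, Le y x → Le z v → Cov x z → M x ≠ z → Le (M x) (M z) ∧ M x ≠ M z

/-- dual zircon hypothesis: every `[y, v]` with `x0 ≤ y < v` has a special matching -/
def DZ (x0 v : Perm (Fin n)) : Prop := ∀ y, Le x0 y → Le y v → y ≠ v → ∃ M, SM y v M

/-- The local rules which follow from the zircon hypothesis. `a < c < b` are positions. -/
structure Rules (x0 v : Perm (Fin n)) : Prop where
  /-- disjoint up-moves commute inside the interval -/
  c0 : ∀ y, Le x0 y → ∀ a b c d : Fin n, a < b → c < d → a ≠ c → a ≠ d → b ≠ c → b ≠ d →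
    y a < y b → y c < y d → Le (y * swap a b) v → Le (y * swap c d) v →
    Le (y * swap a b * swap c d) v
  /-- at 123 with 213 and 132 below v: one of 231, 312 is below v -/
  c1 : ∀ y, Le x0 y → ∀ a c b : Fin n, a < c → c < b → y a < y c → y c < y b →
    Le (y * swap a c) v → Le (y * swap c b) v →
    Le (y * swap a c * swap c b) v ∨ Le (y * swap a c * swap a b) v
  /-- at 132 with 312 and 231 below v: 321 is below v -/
  c2 : ∀ y, Le x0 y → ∀ a c b : Fin n, a < c → c < b → y a < y b → y b < y c →
    Le (y * swap a c) v → Le (y * swap a b) v → Le (y * swap a c * swap c b) v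
  /-- at 213 with 231 and 312 below v: 321 is below v -/
  c2' : ∀ y, Le x0 y → ∀ a c b : Fin n, a < c → c < b → y c < y a → y a < y b →
    Le (y * swap c b) v → Le (y * swap a b) v → Le (y * swap c b * swap a c) v

end Pool.Agent.H25.Zir
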