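import Pool.Agent.H25.Zir.Rank

/-!
# Difference lemmas and lifting for the rank order
-/

namespace Pool.Agent.H25.Zir

open Equiv Finset

variable {n : ℕ}

/-- effect of an adjacent transposition on the rank -/
theorem rk_adj (y : Perm (Fin n)) {i j : Fin n} (hij : (j : ℕ) = i + 1) (q : ℕ) :
    rk (y * swap i j) j q = rk y i q + ind ((y j : ℕ) < q) := by
  have hne : i ≠ j := fun h => by rw [h] at hij; omega
  have h := rk_swap_gen y hne j q
  have h1 := rk_succ y i q
  rw [← hij] at h1
  unfold ind at *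
  split_ifs at * <;> omega

theorem rk_adj_ne (y : Perm (Fin n)) {i j : Fin n} (hij : (j : ℕ) = i + 1) {p : ℕ} (hp : p ≠ j)
    (q : ℕ) : rk (y * swap i j) p q = rk y p q := by
  have hne : i ≠ j := fun h => by rw [h] at hij; omega
  have h := rk_swap_gen y hne p q
  unfold ind at *
  split_ifs at * <;> omega

/-- the four relations around an adjacent pair of columns -/
theorem rk_two (y : Perm (Fin n)) {i j : Fin n} (hij : (j : ℕ) = i + 1) (q : ℕ) :
    rk y j q = rk y i q + ind ((y i : ℕ) < q) ∧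
    rk y (j + 1) q = rk y j q + ind ((y j : ℕ) < q) := by
  have h1 := rk_succ y i q
  rw [← hij] at h1
  exact ⟨h1, rk_succ y j q⟩

/-- lifting property -/
theorem lift_up {x y : Perm (Fin n)} (h : Le x y) {i j : Fin n} (hij : (j : ℕ) = i + 1)
    (hx : x i < x j) (hy : y j < y i) : Le (x * swap i j) y ∧ Le x (y * swap i j) := by
  have hx' : (x i : ℕ) < x j := hx
  have hy' : (y j : ℕ) < y i := hy
  constructor
  · intro p q
    by_cases hp : p = j
    · rw [hp, rk_adj x hij]
      obtain ⟨a1, a2⟩ := rk_two x hij q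
      obtain ⟨b1, b2⟩ := rk_two y hij q
      have c1 := h i q
      have c2 := h j q
      have c3 := h (j + 1) q
      unfold ind at *
      split_ifs at * <;> omega
    · rw [rk_adj_ne x hij hp]
      exact h p q
  · intro p q
    by_cases hp : p = j
    · rw [hp, rk_adj y hij]
      obtain ⟨a1, a2⟩ := rk_two x hij q
      obtain ⟨b1, b2⟩ := rk_two y hij q
      have c1 := h i q
      have c2 := h j q
      have c3 := h (j + 1) q
      unfold ind at *
      split_ifs at * <;> omega
    · rw [rk_adj_ne y hij hp]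
      exact h p q

theorem lift_both {x y : Perm (Fin n)} (h : Le x y) {i j : Fin n} (hij : (j : ℕ) = i + 1)
    (hx : x i < x j) (hy : y i < y j) : Le (x * swap i j) (y * swap i j) := by
  have hx' : (x i : ℕ) < x j := hx
  have hy' : (y i : ℕ) < y j := hy
  intro p q
  by_cases hp : p = j
  · rw [hp, rk_adj x hij, rk_adj y hij]
    obtain ⟨a1, a2⟩ := rk_two x hij q
    obtain ⟨b1, b2⟩ := rk_two y hij q
    have c1 := h i q
    have c2 := h j q
    have c3 := h (j + 1) q
    unfold ind at *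
    split_ifs at * <;> omega
  · rw [rk_adj_ne x hij hp, rk_adj_ne y hij hp]
    exact h p q

theorem lift_both' {x y : Perm (Fin n)} (h : Le x y) {i j : Fin n} (hij : (j : ℕ) = i + 1)
    (hx : x j < x i) (hy : y j < y i) : Le (x * swap i j) (y * swap i j) := by
  have hx' : (x j : ℕ) < x i := hx
  have hy' : (y j : ℕ) < y i := hy
  intro p q
  by_cases hp : p = j
  · rw [hp, rk_adj x hij, rk_adj y hij]
    obtain ⟨a1, a2⟩ := rk_two x hij q
    obtain ⟨b1, b2⟩ := rk_two y hij q
    have c1 := h i q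
    have c2 := h j q
    have c3 := h (j + 1) q
    unfold ind at *
    split_ifs at * <;> omega
  · rw [rk_adj_ne x hij hp, rk_adj_ne y hij hp]
    exact h p q

/-- the counting step of the first difference lemma -/
theorem down_claim {x z : Perm (Fin n)} {a b : Fin n} (hpre : ∀ q, rk x a q = rk z a q)
    (hlt : (x a : ℕ) < z a)
    (hmin : ∀ c : Fin n, a < c → c < b → ¬ ((x a : ℕ) ≤ z c ∧ (z c : ℕ) < z a))
    {q : ℕ} (hq1 : (x a : ℕ) < q) (hq2 : q ≤ z a) (k : ℕ) (hk : (a : ℕ) + 1 + k ≤ b) :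
    rk z (a + 1 + k) q + 1 + rk x (a + 1 + k) (x a) ≤
          rk x (a + 1 + k) q + rk z (a + 1 + k) (x a) := by
  induction k with
  | zero =>
    have e1 := rk_succ x a q
    have e2 := rk_succ z a q
    have e3 := rk_succ x a (x a)
    have e4 := rk_succ z a (x a)
    have p1 := hpre q
    have p2 := hpre (x a)
    rw [add_zero]
    unfold ind at e1 e2 e3 e4
    rw [if_pos hq1] at e1
    rw [if_neg (by omega)] at e2
    rw [if_neg (by omega)] at e3
    rw [if_neg (by omega)] at e4
    omega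
  | succ k ih =>
    have hk' : (a : ℕ) + 1 + k < n := by have := b.is_lt; omega
    have ih' := ih (by omega)
    have e1 := rk_succ x ⟨a + 1 + k, hk'⟩ q
    have e2 := rk_succ z ⟨a + 1 + k, hk'⟩ q
    have e3 := rk_succ x ⟨a + 1 + k, hk'⟩ (x a)
    have e4 := rk_succ z ⟨a + 1 + k, hk'⟩ (x a)
    have hmid := hmin ⟨a + 1 + k, hk'⟩ (by rw [Fin.lt_def]; simp only; omega)
      (by rw [Fin.lt_def]; simp only; omega)
    clear hmin hpre ih
    simp only at e1 e2 e3 e4
    rw [show (a : ℕ) + 1 + (k + 1) = a + 1 + k + 1 by ring]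
    have i1 : ind ((z ⟨a + 1 + k, hk'⟩ : ℕ) < q) = ind ((z ⟨a + 1 + k, hk'⟩ : ℕ) < x a) := by
      unfold ind
      split_ifs <;> omega
    have i2 : ind ((x ⟨a + 1 + k, hk'⟩ : ℕ) < x a) ≤ ind ((x ⟨a + 1 + k, hk'⟩ : ℕ) < q) := by
      unfold ind
      split_ifs <;> omega
    omega

/-- first difference, lower version: from above one can move down, by a cover. -/
theorem exists_down_first {x z : Perm (Fin n)} (h : Le x z) (hne : x ≠ z) :
    ∃ p d : Fin n, p < d ∧ z d < z p ∧ x p ≤ z d ∧ (∀ c, c < p → x c = z c) ∧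
      (∀ c, p < c → c < d → ¬ (x p ≤ z c ∧ z c < z p)) ∧ Le x (z * swap p d) := by
  classical
  have hex : ∃ a, x a ≠ z a := by
    by_contra hc
    push Not at hc
    exact hne (Equiv.ext hc)
  -- first difference
  obtain ⟨a, ha, hamin⟩ : ∃ a, x a ≠ z a ∧ ∀ c, c < a → x c = z c := by
    let S := univ.filter (fun a : Fin n => x a ≠ z a)
    have hS : S.Nonempty := by obtain ⟨a, ha⟩ := hex; exact ⟨a, by simp [S, ha]⟩
    refine ⟨S.min' hS, ?_, ?_⟩
    · have := S.min'_mem hS
      simp only [S, mem_filter, mem_univ, true_and] at this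
      exact this
    · intro c hc
      by_contra hcc
      have : c ∈ S := by simp [S, hcc]
      exact absurd (S.min'_le c this) (not_le.mpr hc)
  have hpre : ∀ q, rk x a q = rk z a q := fun q => rk_congr (fun c hc => hamin c hc) q
  have hlt : (x a : ℕ) < z a := by
    have e3 := rk_succ x a ((z a : ℕ) + 1)
    have e4 := rk_succ z a ((z a : ℕ) + 1)
    have e6 := h (a + 1) ((z a : ℕ) + 1)
    have p2 := hpre ((z a : ℕ) + 1)
    have hne' : (x a : ℕ) ≠ z a := fun hh => ha (Fin.ext hh)
    clear h hpre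
    unfold ind at *
    split_ifs at * <;> omega
  -- first position to the right with value in [x a, z a)
  obtain ⟨b, ⟨hb1, hb2, hb3⟩, hbmin⟩ : ∃ b, (a < b ∧ x a ≤ z b ∧ z b < z a) ∧
      ∀ c, a < c → c < b → ¬ (x a ≤ z c ∧ z c < z a) := by
    let S := univ.filter (fun b : Fin n => a < b ∧ x a ≤ z b ∧ z b < z a)
    have hS : S.Nonempty := by
      refine ⟨z.symm (x a), ?_⟩
      simp only [S, mem_filter, mem_univ, true_and, Equiv.apply_symm_apply, le_refl]
      refine ⟨?_, hlt⟩
      rcases lt_trichotomy a (z.symm (x a)) with h1 | h1 | h1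
      · exact h1
      · exfalso
        apply ha
        conv_rhs => rw [h1]
        simp
      · exfalso
        have := hamin _ h1
        rw [Equiv.apply_symm_apply] at this
        have := x.injective this
        rw [this] at h1
        exact lt_irrefl _ h1
    refine ⟨S.min' hS, ?_, ?_⟩
    · have := S.min'_mem hS
      simp only [S, mem_filter, mem_univ, true_and] at this
      exact this
    · intro c hc1 hc2 hcc
      have : c ∈ S := by simp [S, hc1, hcc.1, hcc.2]
      exact absurd (S.min'_le c this) (not_le.mpr hc2)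
  refine ⟨a, b, hb1, hb3, hb2, hamin, hbmin, ?_⟩
  have hb2' : (x a : ℕ) ≤ z b := hb2
  have hb3' : (z b : ℕ) < z a := hb3
  intro p q
  have hgen := rk_swap_gen z hb1.ne p q
  have h5 := h p q
  have hb1' : (a : ℕ) < b := hb1
  by_cases hr : ((a : ℕ) < p ∧ p ≤ b) ∧ ((z b : ℕ) < q ∧ q ≤ z a)
  · obtain ⟨⟨hp1, hp2⟩, hq1, hq2⟩ := hr
    have hk := down_claim hpre hlt hbmin (q := q) (by omega) hq2 (p - (a + 1)) (by omega)
    have hp : (a : ℕ) + 1 + (p - (a + 1)) = p := by omega
    rw [hp] at hk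
    have h6 := h p (x a)
    clear h hpre hbmin hamin hex
    unfold ind at hgen
    have g1 : ¬ ((a : ℕ) < p ∧ (z a : ℕ) < q) := by omega
    have g2 : ¬ ((b : ℕ) < p ∧ (z b : ℕ) < q) := by omega
    have g3 : (a : ℕ) < p ∧ (z b : ℕ) < q := by omega
    have g4 : ¬ ((b : ℕ) < p ∧ (z a : ℕ) < q) := by omega
    rw [if_neg g1, if_neg g2, if_pos g3, if_neg g4] at hgen
    omega
  · clear h hpre hbmin hamin hex
    unfold ind at hgen
    split_ifs at hgen <;> omega

/-- reversal of positions and values -/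
def rv (y : Perm (Fin n)) : Perm (Fin n) := Fin.revPerm * y * Fin.revPerm

theorem rv_apply (y : Perm (Fin n)) (c : Fin n) : rv y c = Fin.rev (y (Fin.rev c)) := rfl

theorem rv_rv (y : Perm (Fin n)) : rv (rv y) = y := by
  ext c
  simp [rv_apply]

theorem rv_mul_swap (y : Perm (Fin n)) (a b : Fin n) :
    rv (y * swap a b) = rv y * swap (Fin.rev a) (Fin.rev b) := by
  ext c
  simp only [rv_apply, Perm.mul_apply]
  congr 3
  by_cases h1 : c = Fin.rev a
  · subst h1; simp
  · by_cases h2 : c = Fin.rev b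
    · subst h2; simp
    · rw [swap_apply_of_ne_of_ne h1 h2, swap_apply_of_ne_of_ne]
      · intro h; apply h1; rw [← h, Fin.rev_rev]
      · intro h; apply h2; rw [← h, Fin.rev_rev]

/-- number of positions in an initial segment -/
theorem card_lt_eq {p : ℕ} (hp : p ≤ n) : ∑ c : Fin n, ind ((c : ℕ) < p) = p := by
  unfold ind
  rw [Finset.sum_boole]
  simp only [Nat.cast_id]
  have : (univ.filter (fun c : Fin n => (c : ℕ) < p)) =
      (univ : Finset (Fin p)).map (Fin.castLEEmb hp) := by
    ext c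
    simp only [mem_filter, mem_univ, true_and, mem_map, Fin.castLEEmb_apply]
    constructor
    · intro h
      exact ⟨⟨c, h⟩, by ext; simp⟩
    · rintro ⟨d, rfl⟩
      simp
  rw [this, card_map, card_univ, Fintype.card_fin]

theorem rk_rv (y : Perm (Fin n)) {p q : ℕ} (hp : p ≤ n) (hq : q ≤ n) :
    rk (rv y) p q + n = rk y (n - p) (n - q) + p + q := by
  have h1 : rk (rv y) p q = ∑ c : Fin n, ind (n - p ≤ (c : ℕ) ∧ n - q ≤ (y c : ℕ)) := by
    unfold rk
    rw [← Equiv.sum_comp Fin.revPerm]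
    apply Finset.sum_congr rfl
    intro c _
    simp only [Fin.revPerm_apply, rv_apply, Fin.rev_rev, Fin.val_rev]
    have h2 := c.is_lt
    have h3 := (y c).is_lt
    unfold ind
    split_ifs <;> omega
  have h2 : ∑ c : Fin n, ind ((y c : ℕ) < n - q) = n - q := by
    rw [Equiv.sum_comp y (fun c : Fin n => ind ((c : ℕ) < n - q))]
    exact card_lt_eq (by omega)
  have h3 : ∑ c : Fin n, ind ((c : ℕ) < n - p) = n - p := card_lt_eq (by omega)
  have h4 : ∑ c : Fin n, (ind (n - p ≤ (c : ℕ) ∧ n - q ≤ (y c : ℕ)) + ind ((y c : ℕ) < n - q)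
      + ind ((c : ℕ) < n - p)) = ∑ c : Fin n, (ind ((c : ℕ) < n - p ∧ (y c : ℕ) < n - q) + 1) := by
    apply Finset.sum_congr rfl
    intro c _
    unfold ind
    split_ifs <;> omega
  rw [Finset.sum_add_distrib, Finset.sum_add_distrib, Finset.sum_add_distrib, h2, h3, ← h1] at h4
  simp only [sum_const, card_univ, Fintype.card_fin, smul_eq_mul, mul_one] at h4
  unfold rk at *
  omega

/-- values beyond `n` do not count -/
theorem rk_ge' (y : Perm (Fin n)) {q : ℕ} (hq : n ≤ q) (p : ℕ) : rk y p q = rk y p n := by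
  unfold rk
  apply Finset.sum_congr rfl
  intro c _
  have := (y c).is_lt
  unfold ind
  split_ifs <;> omega

theorem le_rv {x z : Perm (Fin n)} (h : Le x z) : Le (rv x) (rv z) := by
  have key : ∀ p q, p ≤ n → q ≤ n → rk (rv z) p q ≤ rk (rv x) p q := by
    intro p q hp hq
    have h1 := rk_rv x hp hq
    have h2 := rk_rv z hp hq
    have h3 := h (n - p) (n - q)
    omega
  intro p q
  rcases le_total p n with hp | hp <;> rcases le_total q n with hq | hq
  · exact key p q hp hq
  · rw [rk_ge' _ hq, rk_ge' _ hq]; exact key p n hp le_rfl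
  · rw [rk_ge _ hp, rk_ge _ hp]; exact key n q le_rfl hq
  · rw [rk_ge _ hp, rk_ge _ hp, rk_ge' _ hq, rk_ge' _ hq]; exact key n n le_rfl le_rfl

/-- last difference, lower version. -/
theorem exists_down_last {x z : Perm (Fin n)} (h : Le x z) (hne : x ≠ z) :
    ∃ c d : Fin n, c < d ∧ z d < z c ∧ z c ≤ x d ∧ (∀ e, d < e → x e = z e) ∧
      (∀ e, c < e → e < d → ¬ (z d < z e ∧ z e ≤ x d)) ∧ Le x (z * swap c d) := by
  have hne' : rv x ≠ rv z := fun hh => hne (by rw [← rv_rv x, hh, rv_rv])
  obtain ⟨p, d, h1, h2, h3, h4, h5, h6⟩ := exists_down_first (le_rv h) hne'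
  refine ⟨Fin.rev d, Fin.rev p, ?_, ?_, ?_, ?_, ?_, ?_⟩
  · exact Fin.rev_lt_rev.mpr h1
  · rw [rv_apply, rv_apply] at h2
    exact Fin.rev_lt_rev.mp h2
  · rw [rv_apply, rv_apply] at h3
    exact Fin.rev_le_rev.mp h3
  · intro e he
    have := h4 (Fin.rev e) (by rw [← Fin.rev_lt_rev, Fin.rev_rev]; exact he)
    rw [rv_apply, rv_apply, Fin.rev_rev] at this
    exact Fin.rev_injective this
  · intro e he1 he2 he3
    apply h5 (Fin.rev e) (by rw [← Fin.rev_lt_rev, Fin.rev_rev]; exact he2)
      (by rw [← Fin.rev_lt_rev, Fin.rev_rev]; exact he1)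
    rw [rv_apply, rv_apply, rv_apply, Fin.rev_rev]
    exact ⟨Fin.rev_le_rev.mpr he3.2, Fin.rev_lt_rev.mpr he3.1⟩
  · have := le_rv h6
    rw [rv_rv, rv_mul_swap, rv_rv, swap_comm] at this
    exact this

end Pool.Agent.H25.Zir
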