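import Pool.Agent.H25.Zir.Len

/-!
# Pure transposition facts (no order)
-/

namespace Pool.Agent.H25.Zir

open Equiv Finset

variable {n : ℕ}

/-- a product of two transpositions only moves the four points -/
theorem mem_four {e f g h x : Fin n} (hx : (swap e f * swap g h) x ≠ x) :
    x = e ∨ x = f ∨ x = g ∨ x = h := by
  by_contra hc
  push Not at hc
  obtain ⟨h1, h2, h3, h4⟩ := hc
  apply hx
  rw [Perm.mul_apply, swap_apply_of_ne_of_ne h3 h4, swap_apply_of_ne_of_ne h1 h2]

/-- values of `swap a b * swap c d` for disjoint pairs -/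
theorem disj_vals {a b c d : Fin n} (hac : a ≠ c) (had : a ≠ d) (hbc : b ≠ c)
    (hbd : b ≠ d) :
    (swap a b * swap c d) a = b ∧ (swap a b * swap c d) b = a ∧
    (swap a b * swap c d) c = d ∧ (swap a b * swap c d) d = c := by
  refine ⟨?_, ?_, ?_, ?_⟩
  · rw [Perm.mul_apply, swap_apply_of_ne_of_ne hac had, swap_apply_left]
  · rw [Perm.mul_apply, swap_apply_of_ne_of_ne hbc hbd, swap_apply_right]
  · rw [Perm.mul_apply, swap_apply_left, swap_apply_of_ne_of_ne had.symm hbd.symm]
  · rw [Perm.mul_apply, swap_apply_right, swap_apply_of_ne_of_ne hac.symm hbc.symm]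

/-- a product of two transpositions which share a point only moves three points -/
theorem shared_moves {e f h : Fin n} {x : Fin n} (hx : (swap e f * swap f h) x ≠ x) :
    x = e ∨ x = f ∨ x = h := by
  rcases mem_four hx with h1 | h1 | h1 | h1
  · exact Or.inl h1
  · exact Or.inr (Or.inl h1)
  · exact Or.inr (Or.inl h1)
  · exact Or.inr (Or.inr h1)

/-- four distinct moved points: the two transpositions are disjoint -/
theorem not_shared {e f h a b c d : Fin n} (hab : a ≠ b) (hac : a ≠ c) (had : a ≠ d)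
    (hbc : b ≠ c) (hbd : b ≠ d) (hcd : c ≠ d)
    (ha : (swap e f * swap f h) a ≠ a) (hb : (swap e f * swap f h) b ≠ b)
    (hc : (swap e f * swap f h) c ≠ c) (hd : (swap e f * swap f h) d ≠ d) : False := by
  rcases shared_moves ha with h1 | h1 | h1 <;> rcases shared_moves hb with h2 | h2 | h2 <;>
  rcases shared_moves hc with h3 | h3 | h3 <;> rcases shared_moves hd with h4 | h4 | h4 <;>
  simp_all

theorem F1 {a b c d e f g h : Fin n} (hab : a ≠ b) (hac : a ≠ c) (had : a ≠ d)
    (hbc : b ≠ c) (hbd : b ≠ d) (hcd : c ≠ d)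
    (hh : swap a b * swap c d = swap e f * swap g h) :
    (swap e f = swap a b ∧ swap g h = swap c d) ∨
    (swap e f = swap c d ∧ swap g h = swap a b) := by
  obtain ⟨v1, v2, v3, v4⟩ := disj_vals hac had hbc hbd
  rw [hh] at v1 v2 v3 v4
  have na : (swap e f * swap g h) a ≠ a := by rw [v1]; exact hab.symm
  have nb : (swap e f * swap g h) b ≠ b := by rw [v2]; exact hab
  have nc : (swap e f * swap g h) c ≠ c := by rw [v3]; exact hcd.symm
  have nd : (swap e f * swap g h) d ≠ d := by rw [v4]; exact hcd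
  by_cases h1 : f = g
  · subst h1; exact (not_shared hab hac had hbc hbd hcd na nb nc nd).elim
  by_cases h2 : f = h
  · subst h2
    rw [swap_comm g f] at na nb nc nd
    exact (not_shared hab hac had hbc hbd hcd na nb nc nd).elim
  by_cases h3 : e = g
  · subst h3
    rw [swap_comm e f] at na nb nc nd
    exact (not_shared hab hac had hbc hbd hcd na nb nc nd).elim
  by_cases h4 : e = h
  · subst h4
    rw [swap_comm e f, swap_comm g e] at na nb nc nd
    exact (not_shared hab hac had hbc hbd hcd na nb nc nd).elim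
  obtain ⟨w1, w2, w3, w4⟩ := disj_vals h3 h4 h1 h2
  have fin1 : swap e f = swap a b → swap g h = swap c d := by
    intro he
    rw [he] at hh
    exact (mul_left_cancel hh).symm
  have fin2 : swap g h = swap a b → swap e f = swap c d := by
    intro he
    have hcomm : swap a b * swap c d = swap c d * swap a b := by
      apply Equiv.ext
      intro x
      by_cases hxa : x = a
      · subst hxa
        rw [(disj_vals hac had hbc hbd).1, (disj_vals hac.symm hbc.symm had.symm hbd.symm).2.2.1]
      by_cases hxb : x = b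
      · subst hxb
        rw [(disj_vals hac had hbc hbd).2.1, (disj_vals hac.symm hbc.symm had.symm hbd.symm).2.2.2]
      by_cases hxc : x = c
      · subst hxc
        rw [(disj_vals hac had hbc hbd).2.2.1, (disj_vals hac.symm hbc.symm had.symm hbd.symm).1]
      by_cases hxd : x = d
      · subst hxd
        rw [(disj_vals hac had hbc hbd).2.2.2, (disj_vals hac.symm hbc.symm had.symm hbd.symm).2.1]
      rw [Perm.mul_apply, Perm.mul_apply, swap_apply_of_ne_of_ne hxc hxd,
        swap_apply_of_ne_of_ne hxa hxb, swap_apply_of_ne_of_ne hxc hxd]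
    rw [he, hcomm] at hh
    exact (mul_right_cancel hh).symm
  rcases mem_four na with h5 | h5 | h5 | h5
  · left
    have : swap e f = swap a b := by rw [h5, w1] at v1; rw [h5, v1]
    exact ⟨this, fin1 this⟩
  · left
    have : swap e f = swap a b := by rw [h5, w2] at v1; rw [h5, v1, swap_comm]
    exact ⟨this, fin1 this⟩
  · right
    have : swap g h = swap a b := by rw [h5, w3] at v1; rw [h5, v1]
    exact ⟨fin2 this, this⟩
  · right
    have : swap g h = swap a b := by rw [h5, w4] at v1; rw [h5, v1, swap_comm]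
    exact ⟨fin2 this, this⟩

/-- values of the 3-cycle -/
theorem cyc_vals {a b c : Fin n} (hab : a ≠ b) (hac : a ≠ c) (hbc : b ≠ c) :
    (swap a c * swap c b) a = c ∧ (swap a c * swap c b) c = b ∧
    (swap a c * swap c b) b = a := by
  refine ⟨?_, ?_, ?_⟩
  · rw [Perm.mul_apply, swap_apply_of_ne_of_ne hac hab, swap_apply_left]
  · rw [Perm.mul_apply, swap_apply_left, swap_apply_of_ne_of_ne hab.symm hbc]
  · rw [Perm.mul_apply, swap_apply_right, swap_apply_right]

theorem F2 {a b c e f g h : Fin n} (hab : a ≠ b) (hac : a ≠ c) (hbc : b ≠ c)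
    (hh : swap a c * swap c b = swap e f * swap g h) (hef : e ≠ f) :
    swap e f = swap a c ∨ swap e f = swap c b ∨ swap e f = swap a b := by
  obtain ⟨v1, v2, v3⟩ := cyc_vals hab hac hbc
  have hfix : ∀ x, x ≠ a → x ≠ b → x ≠ c → (swap e f * swap g h) x = x := by
    intro x h1 h2 h3
    rw [← hh, Perm.mul_apply, swap_apply_of_ne_of_ne h3 h2, swap_apply_of_ne_of_ne h1 h3]
  rw [hh] at v1 v2 v3
  -- the two transpositions are not disjoint
  by_cases hd : e ≠ g ∧ e ≠ h ∧ f ≠ g ∧ f ≠ h
  · exfalso
    obtain ⟨h1, h2, h3, h4⟩ := hd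
    obtain ⟨w1, w2, w3, w4⟩ := disj_vals h1 h2 h3 h4
    have na : (swap e f * swap g h) a ≠ a := by rw [v1]; exact hac.symm
    rcases mem_four na with h5 | h5 | h5 | h5
    · rw [h5, w1] at v1; rw [← v1, w2, ← h5] at v2; exact hab v2
    · rw [h5, w2] at v1; rw [← v1, w1, ← h5] at v2; exact hab v2
    · rw [h5, w3] at v1; rw [← v1, w4, ← h5] at v2; exact hab v2
    · rw [h5, w4] at v1; rw [← v1, w3, ← h5] at v2; exact hab v2
  · -- e and f are moved
    have key : ∀ x y, swap e f = swap x y → x ≠ y → (swap e f * swap g h) x ≠ x →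
        (swap e f * swap g h) y ≠ y → (swap e f = swap a c ∨ swap e f = swap c b ∨
          swap e f = swap a b) := by
      intro x y hxy hne hx hy
      have hx' : x = a ∨ x = b ∨ x = c := by
        by_contra hc; push Not at hc; exact hx (hfix x hc.1 hc.2.1 hc.2.2)
      have hy' : y = a ∨ y = b ∨ y = c := by
        by_contra hc; push Not at hc; exact hy (hfix y hc.1 hc.2.1 hc.2.2)
      rcases hx' with h1 | h1 | h1 <;> rcases hy' with h2 | h2 | h2 <;> subst h1 <;> subst h2
      · exact absurd rfl hne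
      · right; right; exact hxy
      · left; exact hxy
      · right; right; rw [hxy, swap_comm]
      · exact absurd rfl hne
      · right; left; rw [hxy, swap_comm]
      · left; rw [hxy, swap_comm]
      · right; left; exact hxy
      · exact absurd rfl hne
    have gh : g ≠ h := by
      intro hgh
      subst hgh
      rw [swap_self] at v1 v2 v3
      simp only [Perm.mul_apply, Equiv.refl_apply] at v1 v2 v3
      have h1 : swap e f (swap e f a) = a := swap_apply_self e f a
      rw [v1, v2] at h1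
      exact hab h1.symm
    have hsame : swap e f ≠ swap g h := by
      intro hs
      rw [← hs] at v1
      rw [swap_mul_self] at v1
      exact hac v1
    have hmv : ∀ x y z, swap e f = swap x y → swap g h = swap y z → x ≠ y → y ≠ z → x ≠ z →
        (swap e f * swap g h) x ≠ x ∧ (swap e f * swap g h) y ≠ y := by
      intro x y z h1 h2 hxy hyz hxz
      rw [h1, h2]
      obtain ⟨u1, u2, u3⟩ := cyc_vals hxz hxy hyz.symm
      rw [u1, u2]
      exact ⟨hxy.symm, hyz.symm⟩
    have hd' : e = g ∨ e = h ∨ f = g ∨ f = h := by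
      by_contra hc; push Not at hc; exact hd hc
    rcases hd' with h1 | h1 | h1 | h1
    · subst h1
      have hfh : f ≠ h := fun h => hsame (by rw [h])
      obtain ⟨m1, m2⟩ := hmv f e h (swap_comm _ _) rfl hef.symm gh hfh
      exact key e f rfl hef m2 m1
    · subst h1
      have hfg : f ≠ g := fun h => hsame (by rw [h, swap_comm])
      obtain ⟨m1, m2⟩ := hmv f e g (swap_comm _ _) (swap_comm _ _) hef.symm gh.symm hfg
      exact key e f rfl hef m2 m1
    · subst h1
      have heh : e ≠ h := fun h => hsame (by rw [h, swap_comm])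
      obtain ⟨m1, m2⟩ := hmv e f h rfl rfl hef gh heh
      exact key e f rfl hef m1 m2
    · subst h1
      have heg : e ≠ g := fun h => hsame (by rw [h])
      obtain ⟨m1, m2⟩ := hmv e f g rfl (swap_comm _ _) hef gh.symm heg
      exact key e f rfl hef m1 m2

/-- `q` lies in the coset `p * Sym {a, b, c}` -/
def InC (a b c : Fin n) (p q : Perm (Fin n)) : Prop :=
  ∀ x, x ≠ a → x ≠ b → x ≠ c → q x = p x

theorem InC.symm {a b c : Fin n} {p q : Perm (Fin n)} (h : InC a b c p q) : InC a b c q p :=
  fun x h1 h2 h3 => (h x h1 h2 h3).symm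

theorem InC.trans {a b c : Fin n} {p q r : Perm (Fin n)} (h : InC a b c p q)
    (h' : InC a b c q r) : InC a b c p r :=
  fun x h1 h2 h3 => (h' x h1 h2 h3).trans (h x h1 h2 h3)

theorem InC.swap_of {a b c e f : Fin n} (p : Perm (Fin n))
    (h : swap e f = swap a c ∨ swap e f = swap c b ∨ swap e f = swap a b) :
    InC a b c p (p * swap e f) := by
  intro x h1 h2 h3
  rw [Perm.mul_apply]
  congr 1
  rcases h with h | h | h <;> rw [h]
  · exact swap_apply_of_ne_of_ne h1 h3
  · exact swap_apply_of_ne_of_ne h3 h2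
  · exact swap_apply_of_ne_of_ne h1 h2

/-- two different permutations with a common neighbour: the product of two transpositions -/
theorem two_step {p q r : Perm (Fin n)} (hpq : p ≠ q) (h1 : Jn p r) (h2 : Jn q r) :
    (∃ a b c d : Fin n, a ≠ b ∧ a ≠ c ∧ a ≠ d ∧ b ≠ c ∧ b ≠ d ∧ c ≠ d ∧
      q = p * (swap a b * swap c d)) ∨
    (∃ a b c : Fin n, a ≠ b ∧ a ≠ c ∧ b ≠ c ∧ q = p * (swap a c * swap c b)) := by
  obtain ⟨e, f, hef, h1⟩ := h1
  obtain ⟨g, h, hgh, h2⟩ := h2
  have hq : q = p * (swap e f * swap g h) := by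
    have : q = r * swap g h := by rw [h2, mul_assoc, swap_mul_self, mul_one]
    rw [this, h1, mul_assoc]
  by_cases hd : e ≠ g ∧ e ≠ h ∧ f ≠ g ∧ f ≠ h
  · left
    exact ⟨e, f, g, h, hef, hd.1, hd.2.1, hd.2.2.1, hd.2.2.2, hgh, hq⟩
  · right
    have hsame : swap e f ≠ swap g h := by
      intro hs
      rw [← hs, swap_mul_self, mul_one] at hq
      exact hpq hq.symm
    have hd' : e = g ∨ e = h ∨ f = g ∨ f = h := by
      by_contra hc; push Not at hc; exact hd hc
    rcases hd' with h1 | h1 | h1 | h1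
    · subst h1
      have hfh : f ≠ h := fun h => hsame (by rw [h])
      exact ⟨f, h, e, hfh, hef.symm, hgh.symm, by rw [hq, swap_comm e f]⟩
    · subst h1
      have hfg : f ≠ g := fun h => hsame (by rw [h, swap_comm])
      exact ⟨f, g, e, hfg, hef.symm, hgh, by rw [hq, swap_comm e f, swap_comm g e]⟩
    · subst h1
      have heh : e ≠ h := fun h => hsame (by rw [h, swap_comm])
      exact ⟨e, h, f, heh, hef, hgh.symm, hq⟩
    · subst h1
      have heg : e ≠ g := fun h => hsame (by rw [h])
      exact ⟨e, g, f, heg, hef, hgh, by rw [hq, swap_comm g f]⟩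

/-- three common neighbours: everything lies in one coset of a `Sym 3` -/
theorem three_common {p q r1 r2 r3 : Perm (Fin n)} (hpq : p ≠ q) (h12 : r1 ≠ r2)
    (h13 : r1 ≠ r3) (h23 : r2 ≠ r3) (p1 : Jn p r1) (p2 : Jn p r2) (p3 : Jn p r3)
    (q1 : Jn q r1) (q2 : Jn q r2) (q3 : Jn q r3) :
    ∃ a b c : Fin n, a ≠ b ∧ a ≠ c ∧ b ≠ c ∧ q = p * (swap a c * swap c b) ∧
      InC a b c p q ∧ InC a b c p r1 ∧ InC a b c p r2 ∧ InC a b c p r3 := by
  have fact : ∀ r, Jn p r → Jn q r → ∃ e f g h : Fin n, e ≠ f ∧ g ≠ h ∧ r = p * swap e f ∧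
      q = p * (swap e f * swap g h) := by
    rintro r ⟨e, f, hef, h1⟩ ⟨g, h, hgh, h2⟩
    refine ⟨e, f, g, h, hef, hgh, h1, ?_⟩
    have : q = r * swap g h := by rw [h2, mul_assoc, swap_mul_self, mul_one]
    rw [this, h1, mul_assoc]
  rcases two_step hpq p1 q1 with ⟨a, b, c, d, hab, hac, had, hbc, hbd, hcd, hq⟩ |
    ⟨a, b, c, hab, hac, hbc, hq⟩
  · exfalso
    have two : ∀ r, Jn p r → Jn q r → r = p * swap a b ∨ r = p * swap c d := by
      intro r hr1 hr2
      obtain ⟨e, f, g, h, hef, hgh, e1, e2⟩ := fact r hr1 hr2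
      rw [hq] at e2
      have e3 := mul_left_cancel e2
      rcases F1 hab hac had hbc hbd hcd e3 with h | h
      · left; rw [e1, h.1]
      · right; rw [e1, h.1]
    rcases two r1 p1 q1 with t1 | t1 <;> rcases two r2 p2 q2 with t2 | t2 <;>
      rcases two r3 p3 q3 with t3 | t3
    · exact h12 (t1.trans t2.symm)
    · exact h12 (t1.trans t2.symm)
    · exact h13 (t1.trans t3.symm)
    · exact h23 (t2.trans t3.symm)
    · exact h23 (t2.trans t3.symm)
    · exact h13 (t1.trans t3.symm)
    · exact h12 (t1.trans t2.symm)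
    · exact h12 (t1.trans t2.symm)
  · have three : ∀ r, Jn p r → Jn q r → InC a b c p r := by
      intro r hr1 hr2
      obtain ⟨e, f, g, h, hef, hgh, e1, e2⟩ := fact r hr1 hr2
      rw [hq] at e2
      have e3 := mul_left_cancel e2
      rw [e1]
      exact InC.swap_of p (F2 hab hac hbc e3 hef)
    refine ⟨a, b, c, hab, hac, hbc, hq, ?_, three r1 p1 q1, three r2 p2 q2, three r3 p3 q3⟩
    rw [hq]
    intro x h1 h2 h3
    rw [Perm.mul_apply, Perm.mul_apply, swap_apply_of_ne_of_ne h3 h2,
      swap_apply_of_ne_of_ne h1 h3]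

/-- an element of `Sym {a, b, c}` is one of six -/
theorem six {a b c : Fin n} (hab : a ≠ b) (hac : a ≠ c) (hbc : b ≠ c) {g : Perm (Fin n)}
    (hg : ∀ x, x ≠ a → x ≠ b → x ≠ c → g x = x) :
    g = 1 ∨ g = swap a c * swap c b ∨ g = swap c b * swap a c ∨
    g = swap a c ∨ g = swap c b ∨ g = swap a b := by
  have stab : ∀ x, (x = a ∨ x = b ∨ x = c) → (g x = a ∨ g x = b ∨ g x = c) := by
    intro x hx
    by_contra hc
    push Not at hc
    have h1 := hg (g x) hc.1 hc.2.1 hc.2.2
    have h2 := g.injective h1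
    rw [h2] at hc
    rcases hx with h | h | h
    · exact hc.1 h
    · exact hc.2.1 h
    · exact hc.2.2 h
  have iab : g a ≠ g b := fun h => hab (g.injective h)
  have iac : g a ≠ g c := fun h => hac (g.injective h)
  have ibc : g b ≠ g c := fun h => hbc (g.injective h)
  have ext3 : ∀ g' : Perm (Fin n), (∀ x, x ≠ a → x ≠ b → x ≠ c → g' x = x) → g a = g' a →
      g b = g' b → g c = g' c → g = g' := by
    intro g' h0 h1 h2 h3
    apply Equiv.ext
    intro x
    by_cases xa : x = a
    · rw [xa, h1]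
    by_cases xb : x = b
    · rw [xb, h2]
    by_cases xc : x = c
    · rw [xc, h3]
    rw [hg x xa xb xc, h0 x xa xb xc]
  obtain ⟨v1, v2, v3⟩ := cyc_vals hab hac hbc
  have u1 : (swap c b * swap a c) a = b := by
    rw [Perm.mul_apply, swap_apply_left, swap_apply_left]
  have u2 : (swap c b * swap a c) b = c := by
    rw [Perm.mul_apply, swap_apply_of_ne_of_ne hab.symm hbc, swap_apply_right]
  have u3 : (swap c b * swap a c) c = a := by
    rw [Perm.mul_apply, swap_apply_right, swap_apply_of_ne_of_ne hac hab]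
  rcases stab a (Or.inl rfl) with ha | ha | ha <;>
    rcases stab b (Or.inr (Or.inl rfl)) with hb | hb | hb <;>
    rcases stab c (Or.inr (Or.inr rfl)) with hc | hc | hc
  all_goals first
    | exact absurd (ha.trans hb.symm) iab
    | exact absurd (ha.trans hc.symm) iac
    | exact absurd (hb.trans hc.symm) ibc
    | skip
  · -- identity
    left
    exact ext3 1 (fun _ _ _ _ => rfl) ha hb hc
  · right; right; right; right; left
    refine ext3 _ (fun x h1 h2 h3 => swap_apply_of_ne_of_ne h3 h2) ?_ ?_ ?_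
    · rw [ha, swap_apply_of_ne_of_ne hac hab]
    · rw [hb, swap_apply_right]
    · rw [hc, swap_apply_left]
  · right; right; right; right; right
    refine ext3 _ (fun x h1 h2 h3 => swap_apply_of_ne_of_ne h1 h2) ?_ ?_ ?_
    · rw [ha, swap_apply_left]
    · rw [hb, swap_apply_right]
    · rw [hc, swap_apply_of_ne_of_ne hac.symm hbc.symm]
  · right; right; left
    refine ext3 _ ?_ ?_ ?_ ?_
    · intro x h1 h2 h3
      rw [Perm.mul_apply, swap_apply_of_ne_of_ne h1 h3, swap_apply_of_ne_of_ne h3 h2]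
    · rw [ha, u1]
    · rw [hb, u2]
    · rw [hc, u3]
  · right; left
    refine ext3 _ ?_ ?_ ?_ ?_
    · intro x h1 h2 h3
      rw [Perm.mul_apply, swap_apply_of_ne_of_ne h3 h2, swap_apply_of_ne_of_ne h1 h3]
    · rw [ha, v1]
    · rw [hb, v3]
    · rw [hc, v2]
  · right; right; right; left
    refine ext3 _ (fun x h1 h2 h3 => swap_apply_of_ne_of_ne h1 h3) ?_ ?_ ?_
    · rw [ha, swap_apply_left]
    · rw [hb, swap_apply_of_ne_of_ne hab.symm hbc]
    · rw [hc, swap_apply_right]

/-- two elements of one coset of a `Sym 3` with opposite signs are joined -/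
theorem coset_joined {a b c : Fin n} (hab : a ≠ b) (hac : a ≠ c) (hbc : b ≠ c)
    {p q : Perm (Fin n)} (h : InC a b c p q) (hs : Perm.sign q = - Perm.sign p) : Jn p q := by
  have hg : ∀ x, x ≠ a → x ≠ b → x ≠ c → (p⁻¹ * q) x = x := by
    intro x h1 h2 h3
    rw [Perm.mul_apply, h x h1 h2 h3]; exact p.symm_apply_apply x
  have hsg : Perm.sign (p⁻¹ * q) = -1 := by
    rw [map_mul, hs, map_inv]
    rcases Int.units_eq_one_or (Perm.sign p) with h2 | h2 <;> rw [h2] <;> decide
  have hq : q = p * (p⁻¹ * q) := by group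
  have even : ∀ e f g h : Fin n, e ≠ f → g ≠ h → Perm.sign (swap e f * swap g h) = 1 := by
    intro e f g h h1 h2
    rw [map_mul, Perm.sign_swap h1, Perm.sign_swap h2]; decide
  have no : ((1 : ℤˣ) = -1) → False := by decide
  rcases six hab hac hbc hg with h1 | h1 | h1 | h1 | h1 | h1
  · exfalso; rw [h1, map_one] at hsg; exact no hsg
  · exfalso; rw [h1, even _ _ _ _ hac hbc.symm] at hsg; exact no hsg
  · exfalso; rw [h1, even _ _ _ _ hbc.symm hac] at hsg; exact no hsg
  · exact ⟨a, c, hac, by rw [← h1]; exact hq⟩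
  · exact ⟨c, b, hbc.symm, by rw [← h1]; exact hq⟩
  · exact ⟨a, b, hab, by rw [← h1]; exact hq⟩

/-- a common neighbour of two different elements of the same sign of a coset lies in it -/
theorem coset_closed {a b c : Fin n} (hab : a ≠ b) (hac : a ≠ c) (hbc : b ≠ c)
    {p q r : Perm (Fin n)} (h : InC a b c p q) (hpq : p ≠ q) (h1 : Jn p r) (h2 : Jn q r) :
    InC a b c p r := by
  have hg : ∀ x, x ≠ a → x ≠ b → x ≠ c → (p⁻¹ * q) x = x := by
    intro x h1 h2 h3
    rw [Perm.mul_apply, h x h1 h2 h3]; exact p.symm_apply_apply x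
  have hs : Perm.sign q = Perm.sign p := by
    have e1 := h1.sign
    have e2 := h2.sign
    rw [e1] at e2
    exact (neg_injective e2).symm
  have hsg : Perm.sign (p⁻¹ * q) = 1 := by
    rw [map_mul, hs, map_inv]
    rcases Int.units_eq_one_or (Perm.sign p) with h2 | h2 <;> rw [h2] <;> decide
  obtain ⟨e, f, hef, hr⟩ := h1
  obtain ⟨e', f', hef', hr'⟩ := h2
  have hq : p⁻¹ * q = swap e f * swap e' f' := by
    have : q = r * swap e' f' := by rw [hr', mul_assoc, swap_mul_self, mul_one]
    rw [this, hr]; group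
  have no : ((-1 : ℤˣ) = 1) → False := by decide
  rw [hr]
  rcases six hab hac hbc hg with h1 | h1 | h1 | h1 | h1 | h1
  · exfalso; apply hpq
    rw [inv_mul_eq_one] at h1; exact h1
  · rw [h1] at hq
    exact InC.swap_of p (F2 hab hac hbc hq hef)
  · rw [h1, swap_comm c b, swap_comm a c] at hq
    have := F2 hab.symm hbc hac hq hef
    apply InC.swap_of p
    rcases this with h | h | h
    · right; left; rw [h, swap_comm]
    · left; rw [h, swap_comm]
    · right; right; rw [h, swap_comm]
  · exfalso; rw [h1, Perm.sign_swap hac] at hsg; exact no hsg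
  · exfalso; rw [h1, Perm.sign_swap hbc.symm] at hsg; exact no hsg
  · exfalso; rw [h1, Perm.sign_swap hab] at hsg; exact no hsg

/-- THE GRAPH LEMMA (both K-HARD and K-LONG): `o1 ≠ o2` have three common neighbours `e1, e2, e3`;
a common neighbour `o3` of `e2, e3` is joined to `e1`. -/
theorem star {o1 o2 o3 e1 e2 e3 : Perm (Fin n)} (ho : o1 ≠ o2) (h12 : e1 ≠ e2)
    (h13 : e1 ≠ e3) (h23 : e2 ≠ e3) (a1 : Jn o1 e1) (a2 : Jn o1 e2) (a3 : Jn o1 e3)
    (b1 : Jn o2 e1) (b2 : Jn o2 e2) (b3 : Jn o2 e3) (c2 : Jn e2 o3) (c3 : Jn e3 o3) :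
    Jn e1 o3 := by
  obtain ⟨a, b, c, hab, hac, hbc, _, -, i1, i2, i3⟩ := three_common ho h12 h13 h23 a1 a2 a3 b1 b2 b3
  have i4 : InC a b c e2 o3 := coset_closed hab hac hbc (i2.symm.trans i3) h23 c2 c3
  refine coset_joined hab hac hbc (i1.symm.trans (i2.trans i4)) ?_
  rw [c2.sign, a2.sign, a1.sign]

end Pool.Agent.H25.Zir
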