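import Pool.Agent.H25.Zir.Core

/-!
# Lengths, covers, and the adjacent lifting property
-/

namespace Pool.Agent.H25.Zir

open Equiv Finset

variable {n : ℕ}

theorem len_eq_sum (y : Perm (Fin n)) : len y = ∑ i : Fin n, ∑ j : Fin n, ind (i < j ∧ y j < y i) := by
  unfold len ind
  rw [Finset.card_filter, Fintype.sum_prod_type]

/-- splitting a double sum along two indices -/
theorem sum_split {a b : Fin n} (hab : a ≠ b) (f : Fin n → Fin n → ℕ) :
    ∑ i, ∑ j, f i j = f a a + f a b + f b a + f b b +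
      ∑ c ∈ ((univ : Finset (Fin n)).erase a).erase b, (f a c + f c a + f b c + f c b) +
      ∑ i ∈ ((univ : Finset (Fin n)).erase a).erase b,
        ∑ j ∈ ((univ : Finset (Fin n)).erase a).erase b, f i j := by
  have hb : b ∈ (univ : Finset (Fin n)).erase a := by simp [hab.symm]
  have key : ∀ f : Fin n → ℕ, ∑ c, f c = f a + (f b + ∑ c ∈ ((univ : Finset (Fin n)).erase a).erase b, f c) := by
    intro f
    rw [Finset.add_sum_erase _ _ hb, Finset.add_sum_erase _ _ (mem_univ a)]
  rw [key]
  rw [key (f a), key (f b)]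
  simp_rw [key]
  simp only [Finset.sum_add_distrib]
  ring

/-- exact effect of an up-move on the length -/
theorem len_swap (y : Perm (Fin n)) {a b : Fin n} (hab : a < b) (hy : y a < y b) :
    len (y * swap a b) = len y + 1 + 2 * ∑ c ∈ ((univ : Finset (Fin n)).erase a).erase b,
      ind (a < c ∧ c < b ∧ y a < y c ∧ y c < y b) := by
  rw [len_eq_sum, len_eq_sum, sum_split hab.ne, sum_split hab.ne (fun i j => ind (i < j ∧ y j < y i))]
  have h1 : ∑ i ∈ ((univ : Finset (Fin n)).erase a).erase b,
        ∑ j ∈ ((univ : Finset (Fin n)).erase a).erase b,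
          ind (i < j ∧ (y * swap a b) j < (y * swap a b) i)
      = ∑ i ∈ ((univ : Finset (Fin n)).erase a).erase b,
        ∑ j ∈ ((univ : Finset (Fin n)).erase a).erase b, ind (i < j ∧ y j < y i) := by
    apply Finset.sum_congr rfl
    intro i hi
    apply Finset.sum_congr rfl
    intro j hj
    simp only [mem_erase, mem_univ, and_true] at hi hj
    rw [Perm.mul_apply, Perm.mul_apply, swap_apply_of_ne_of_ne hi.2 hi.1,
      swap_apply_of_ne_of_ne hj.2 hj.1]
  rw [h1]
  have h2 : ∑ c ∈ ((univ : Finset (Fin n)).erase a).erase b,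
        (ind (a < c ∧ (y * swap a b) c < (y * swap a b) a) +
         ind (c < a ∧ (y * swap a b) a < (y * swap a b) c) +
         ind (b < c ∧ (y * swap a b) c < (y * swap a b) b) +
         ind (c < b ∧ (y * swap a b) b < (y * swap a b) c))
      = ∑ c ∈ ((univ : Finset (Fin n)).erase a).erase b,
        ((ind (a < c ∧ y c < y a) + ind (c < a ∧ y a < y c) + ind (b < c ∧ y c < y b) +
         ind (c < b ∧ y b < y c)) + 2 * ind (a < c ∧ c < b ∧ y a < y c ∧ y c < y b)) := by
    apply Finset.sum_congr rfl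
    intro c hc
    simp only [mem_erase, mem_univ, and_true] at hc
    have hca : y c ≠ y a := fun h => hc.2 (y.injective h)
    have hcb : y c ≠ y b := fun h => hc.1 (y.injective h)
    simp only [Perm.mul_apply, swap_apply_left, swap_apply_right,
      swap_apply_of_ne_of_ne hc.2 hc.1]
    have e1 : (y c : ℕ) ≠ y a := fun h => hca (Fin.ext h)
    have e2 : (y c : ℕ) ≠ y b := fun h => hcb (Fin.ext h)
    have e3 : (c : ℕ) ≠ a := fun h => hc.2 (Fin.ext h)
    have e4 : (c : ℕ) ≠ b := fun h => hc.1 (Fin.ext h)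
    simp only [Fin.lt_def] at hab hy ⊢
    unfold ind
    split_ifs <;> omega
  rw [h2, Finset.sum_add_distrib, ← Finset.mul_sum]
  simp only [Perm.mul_apply, swap_apply_left, swap_apply_right]
  have h3 : ind (a < a ∧ y b < y b) = 0 := by unfold ind; simp
  have h4 : ind (a < b ∧ y a < y b) = 1 := by unfold ind; simp [hab, hy]
  have h5 : ind (b < a ∧ y b < y a) = 0 := by unfold ind; simp [hab.not_gt]
  have h6 : ind (b < b ∧ y a < y a) = 0 := by unfold ind; simp
  have h7 : ind (a < a ∧ y a < y a) = 0 := by unfold ind; simp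
  have h8 : ind (a < b ∧ y b < y a) = 0 := by unfold ind; simp [hy.not_gt]
  have h9 : ind (b < a ∧ y a < y b) = 0 := by unfold ind; simp [hab.not_gt]
  have h10 : ind (b < b ∧ y b < y b) = 0 := by unfold ind; simp
  rw [h3, h4, h5, h6, h7, h8, h9, h10]
  ring

theorem len_swap_lt {y : Perm (Fin n)} {a b : Fin n} (hab : a < b) (hy : y a < y b) :
    len y < len (y * swap a b) := by
  have := len_swap y hab hy
  omega

theorem len_swap_cov {y : Perm (Fin n)} {a b : Fin n} (hab : a < b) (hy : y a < y b)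
    (hmid : ∀ c, a < c → c < b → ¬ (y a < y c ∧ y c < y b)) : len (y * swap a b) = len y + 1 := by
  rw [len_swap y hab hy]
  have h : ∑ c ∈ ((univ : Finset (Fin n)).erase a).erase b,
      ind (a < c ∧ c < b ∧ y a < y c ∧ y c < y b) = 0 := by
    apply Finset.sum_eq_zero
    intro c _
    unfold ind
    rw [if_neg]
    rintro ⟨h1, h2, h3⟩
    exact hmid c h1 h2 h3
  rw [h]

/-- adjacent swaps -/
theorem len_swap_adj {y : Perm (Fin n)} {i j : Fin n} (hij : (j : ℕ) = i + 1) (hy : y i < y j) :
    len (y * swap i j) = len y + 1 := by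
  apply len_swap_cov (by rw [Fin.lt_def]; omega) hy
  intro c h1 h2
  rw [Fin.lt_def] at h1 h2
  omega

/-- adjacent swaps, downwards -/
theorem len_swap_adj' {y : Perm (Fin n)} {i j : Fin n} (hij : (j : ℕ) = i + 1) (hy : y j < y i) :
    len y = len (y * swap i j) + 1 := by
  have h := len_swap_adj (y := y * swap i j) hij (by
    simpa only [Perm.mul_apply, swap_apply_left, swap_apply_right] using hy)
  rwa [mul_assoc, swap_mul_self, mul_one] at h

theorem len_le_sq (y : Perm (Fin n)) : len y ≤ n * n := by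
  unfold len
  refine (Finset.card_filter_le _ _).trans ?_
  simp

theorem len_lt {x v : Perm (Fin n)} (h : Le x v) (hne : x ≠ v) : len x < len v := by
  have key : ∀ k : ℕ, ∀ x : Perm (Fin n), n * n - len x ≤ k → Le x v → x ≠ v → len x < len v := by
    intro k
    induction k with
    | zero =>
      intro x hx h hne
      obtain ⟨a, b, hab, hxab, -, -, -, hle⟩ := exists_up h hne
      have h1 := len_swap_lt hab hxab
      have h2 := len_le_sq (x * swap a b)
      omega
    | succ k ih =>
      intro x hx h hne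
      obtain ⟨a, b, hab, hxab, -, -, -, hle⟩ := exists_up h hne
      have h1 := len_swap_lt hab hxab
      by_cases he : x * swap a b = v
      · rw [← he]; exact h1
      · have h2 := len_le_sq (x * swap a b)
        exact h1.trans (ih _ (by omega) hle he)
  exact key _ x le_rfl h hne

theorem len_le {x v : Perm (Fin n)} (h : Le x v) : len x ≤ len v := by
  by_cases hne : x = v
  · rw [hne]
  · exact (len_lt h hne).le

theorem eq_of_le_of_len {x v : Perm (Fin n)} (h : Le x v) (hl : len v ≤ len x) : x = v := by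
  by_contra hne
  exact absurd (len_lt h hne) (not_lt.mpr hl)

theorem cov_of_len {x z : Perm (Fin n)} (h : Le x z) (hl : len z = len x + 1) : Cov x z := by
  refine ⟨h, ?_, ?_⟩
  · rintro rfl; omega
  · intro w h1 h2
    by_contra hc
    push Not at hc
    have h3 := len_lt h1 (Ne.symm hc.1)
    have h4 := len_lt h2 hc.2
    omega

/-- from below one can move up by a transposition which is a cover -/
theorem exists_cov_up' {x v : Perm (Fin n)} (h : Le x v) (hne : x ≠ v) :
    ∃ a b : Fin n, a < b ∧ x a < x b ∧ len (x * swap a b) = len x + 1 ∧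
      Cov x (x * swap a b) ∧ Le (x * swap a b) v := by
  obtain ⟨a, b, hab, hxab, -, hbv, hmid, hle⟩ := exists_up h hne
  have hl : len (x * swap a b) = len x + 1 := by
    apply len_swap_cov hab hxab
    rintro c h1 h2 ⟨h3, h4⟩
    exact hmid c h1 h2 ⟨h3, h4.le.trans hbv⟩
  exact ⟨a, b, hab, hxab, hl, cov_of_len (le_swap x hab hxab) hl, hle⟩

theorem exists_cov_up {x v : Perm (Fin n)} (h : Le x v) (hne : x ≠ v) :
    ∃ z, Cov x z ∧ Le z v := by
  obtain ⟨a, b, -, -, -, hc, hle⟩ := exists_cov_up' h hne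
  exact ⟨_, hc, hle⟩

theorem exists_cov_down {x v : Perm (Fin n)} (h : Le x v) (hne : x ≠ v) :
    ∃ z, Le x z ∧ Cov z v := by
  have key : ∀ k : ℕ, ∀ x : Perm (Fin n), len v - len x ≤ k → Le x v → x ≠ v →
      ∃ z, Le x z ∧ Cov z v := by
    intro k
    induction k with
    | zero =>
      intro x hx h hne
      have := len_lt h hne
      omega
    | succ k ih =>
      intro x hx h hne
      obtain ⟨a, b, hab, hxab, hl, hc, hle⟩ := exists_cov_up' h hne
      by_cases he : x * swap a b = v
      · exact ⟨x, Le.refl x, he ▸ hc⟩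
      · obtain ⟨z, h1, h2⟩ := ih _ (by omega) hle he
        exact ⟨z, hc.1.trans h1, h2⟩
  exact key _ x le_rfl h hne

/-- a cover is a transposition which raises the length by one -/
theorem Cov.exists_swap {x z : Perm (Fin n)} (h : Cov x z) :
    ∃ a b : Fin n, a < b ∧ x a < x b ∧ z = x * swap a b ∧ len z = len x + 1 := by
  obtain ⟨a, b, hab, hxab, hl, hc, hle⟩ := exists_cov_up' h.1 h.2.1
  rcases h.2.2 _ hc.1 hle with he | he
  · exact absurd he hc.2.1.symm
  · exact ⟨a, b, hab, hxab, he.symm, he ▸ hl⟩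

theorem Cov.len {x z : Perm (Fin n)} (h : Cov x z) : len z = len x + 1 := by
  obtain ⟨-, -, -, -, -, hl⟩ := h.exists_swap
  exact hl

theorem Cov.jn {x z : Perm (Fin n)} (h : Cov x z) : Jn x z := by
  obtain ⟨a, b, hab, -, he, -⟩ := h.exists_swap
  exact ⟨a, b, hab.ne, he⟩

theorem Jn.sign {x z : Perm (Fin n)} (h : Jn x z) : Perm.sign z = - Perm.sign x := by
  obtain ⟨a, b, hab, he⟩ := h
  rw [he, Perm.sign_mul, Perm.sign_swap hab]
  simp

theorem Cov.sign {x z : Perm (Fin n)} (h : Cov x z) : Perm.sign z = - Perm.sign x :=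
  h.jn.sign

theorem Jn.symm {x z : Perm (Fin n)} (h : Jn x z) : Jn z x := by
  obtain ⟨a, b, hab, he⟩ := h
  refine ⟨a, b, hab, ?_⟩
  rw [he, mul_assoc, swap_mul_self, mul_one]

theorem Jn.ne {x z : Perm (Fin n)} (h : Jn x z) : x ≠ z := by
  obtain ⟨a, b, hab, he⟩ := h
  intro hxz
  rw [hxz] at he
  have h1 : (1 : Perm (Fin n)) = swap a b := by
    apply mul_left_cancel (a := z)
    rw [mul_one]; exact he
  have h2 := congrArg (fun f : Perm (Fin n) => f a) h1
  simp only [Perm.one_apply, swap_apply_left] at h2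
  exact hab h2

/-- joined elements are comparable -/
theorem Jn.comp {x z : Perm (Fin n)} (h : Jn x z) :
    (∃ a b : Fin n, a < b ∧ x a < x b ∧ z = x * swap a b) ∨
    (∃ a b : Fin n, a < b ∧ z a < z b ∧ x = z * swap a b) := by
  obtain ⟨a, b, hab, he⟩ := h
  have hx : x = z * swap a b := by rw [he, mul_assoc, swap_mul_self, mul_one]
  have hza : z a = x b := by rw [he, Perm.mul_apply, swap_apply_left]
  have hzb : z b = x a := by rw [he, Perm.mul_apply, swap_apply_right]
  have hne : x a ≠ x b := fun hh => hab (x.injective hh)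
  rcases lt_or_gt_of_ne hab with h1 | h1 <;> rcases lt_or_gt_of_ne hne with h2 | h2
  · exact Or.inl ⟨a, b, h1, h2, he⟩
  · exact Or.inr ⟨a, b, h1, by rw [hza, hzb]; exact h2, hx⟩
  · exact Or.inr ⟨b, a, h1, by rw [hza, hzb]; exact h2, by rw [swap_comm]; exact hx⟩
  · exact Or.inl ⟨b, a, h1, h2, by rw [swap_comm]; exact he⟩

theorem Jn.comp' {x z : Perm (Fin n)} (h : Jn x z) :
    (Le x z ∧ Zir.len x < Zir.len z) ∨ (Le z x ∧ Zir.len z < Zir.len x) := by
  rcases h.comp with ⟨a, b, h1, h2, h3⟩ | ⟨a, b, h1, h2, h3⟩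
  · left; rw [h3]; exact ⟨le_swap x h1 h2, len_swap_lt h1 h2⟩
  · right; rw [h3]; exact ⟨le_swap z h1 h2, len_swap_lt h1 h2⟩

end Pool.Agent.H25.Zir
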