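import Pool.Agent.H25.Zir.Match

/-!
# The local rules from the zircon hypothesis
-/

namespace Pool.Agent.H25.Zir

open Equiv Finset

variable {n : ℕ}

theorem perm_cancel {y s t : Perm (Fin n)} (h : y * s = y * t) : s = t := mul_left_cancel h

/-- from `y s e = y t g` with involutions we get `s t = e g` -/
theorem fact_of_meet {y s t e g m : Perm (Fin n)} (hs : s * s = 1) (ht : t * t = 1)
    (he : e * e = 1) (hg : g * g = 1) (h1 : m = y * s * e) (h2 : m = y * t * g) :
    s * t = e * g := by
  have h3 : y * (s * e) = y * (t * g) := by rw [← mul_assoc, ← mul_assoc, ← h1, ← h2]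
  have h4 : s * e = t * g := mul_left_cancel h3
  have h5 : s⁻¹ = s := inv_eq_of_mul_eq_one_left hs
  have h6 : t⁻¹ = t := inv_eq_of_mul_eq_one_left ht
  have h7 : e⁻¹ = e := inv_eq_of_mul_eq_one_left he
  have h8 : g⁻¹ = g := inv_eq_of_mul_eq_one_left hg
  have h9 : e = s⁻¹ * (t * g) := by rw [← h4]; group
  have h10 : e * g = s⁻¹ * t := by
    rw [h9]
    have : g = g⁻¹ := h8.symm
    calc s⁻¹ * (t * g) * g = s⁻¹ * t * (g * g) := by group
      _ = s⁻¹ * t := by rw [hg, mul_one]
  rw [h10, h5]

theorem swap_sq (a b : Fin n) : swap a b * swap a b = 1 := swap_mul_self a b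

theorem rules_of_DZ {x0 v : Perm (Fin n)} (H : DZ x0 v) : Rules x0 v where
  c0 := by
    intro y h0 a b c d hab hcd hac had hbc hbd hyab hycd h1 h2
    have hne : y * swap a b ≠ y * swap c d := by
      intro h
      have h3 := congrArg (fun f : Perm (Fin n) => f a) (mul_left_cancel h)
      simp only [swap_apply_left, swap_apply_of_ne_of_ne hac had] at h3
      exact hab.ne' h3
    obtain ⟨m, hym, hmv, hmy, ⟨e, f, hef, hm1⟩, ⟨g, k, hgk, hm2⟩⟩ := ruleR2 H _ y rfl h0 _ _ hne
      ⟨a, b, hab.ne, rfl⟩ ⟨c, d, hcd.ne, rfl⟩ (le_swap y hab hyab) (le_swap y hcd hycd) h1 h2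
    have hm1' : m = y * swap a b * swap e f := by
      rw [hm1, mul_assoc, swap_mul_self, mul_one]
    have hm2' : m = y * swap c d * swap g k := by
      rw [hm2, mul_assoc, swap_mul_self, mul_one]
    have key := fact_of_meet (swap_sq _ _) (swap_sq _ _) (swap_sq _ _) (swap_sq _ _) hm1' hm2'
    rcases F1 hab.ne hac had hbc hbd hcd.ne key with ⟨h3, h4⟩ | ⟨h3, h4⟩
    · exfalso
      apply hmy
      rw [hm1', h3, mul_assoc, swap_mul_self, mul_one]
    · rw [← h3, ← hm1']; exact hmv
  c1 := by
    intro y h0 a c b hac hcb hyac hycb h1 h2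
    have hab := hac.trans hcb
    have hne : y * swap a c ≠ y * swap c b := by
      intro h
      have h3 := congrArg (fun f : Perm (Fin n) => f a) (mul_left_cancel h)
      simp only [swap_apply_left, swap_apply_of_ne_of_ne hac.ne hab.ne] at h3
      exact hac.ne' h3
    obtain ⟨m, hym, hmv, hmy, ⟨e, f, hef, hm1⟩, ⟨g, k, hgk, hm2⟩⟩ := ruleR2 H _ y rfl h0 _ _ hne
      ⟨a, c, hac.ne, rfl⟩ ⟨c, b, hcb.ne, rfl⟩ (le_swap y hac hyac) (le_swap y hcb hycb) h1 h2
    have hm1' : m = y * swap a c * swap e f := by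
      rw [hm1, mul_assoc, swap_mul_self, mul_one]
    have hm2' : m = y * swap c b * swap g k := by
      rw [hm2, mul_assoc, swap_mul_self, mul_one]
    have key := fact_of_meet (swap_sq _ _) (swap_sq _ _) (swap_sq _ _) (swap_sq _ _) hm1' hm2'
    rcases F2 hab.ne hac.ne hcb.ne' key hef with h3 | h3 | h3
    · exfalso
      apply hmy
      rw [hm1', h3, mul_assoc, swap_mul_self, mul_one]
    · left; rw [← h3, ← hm1']; exact hmv
    · right; rw [← h3, ← hm1']; exact hmv
  c2 := by
    intro y h0 a c b hac hcb hyab hybc h1 h2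
    have hab := hac.trans hcb
    have hne : y * swap a c ≠ y * swap a b := by
      intro h
      have h3 := congrArg (fun f : Perm (Fin n) => f a) (mul_left_cancel h)
      simp only [swap_apply_left] at h3
      exact hcb.ne h3
    obtain ⟨m, hym, hmv, hmy, ⟨e, f, hef, hm1⟩, ⟨g, k, hgk, hm2⟩⟩ := ruleR2 H _ y rfl h0 _ _ hne
      ⟨a, c, hac.ne, rfl⟩ ⟨a, b, hab.ne, rfl⟩ (le_swap y hac (hyab.trans hybc))
      (le_swap y hab hyab) h1 h2
    have hm1' : m = y * swap a c * swap e f := by
      rw [hm1, mul_assoc, swap_mul_self, mul_one]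
    have hm2' : m = y * swap a b * swap g k := by
      rw [hm2, mul_assoc, swap_mul_self, mul_one]
    have key := fact_of_meet (swap_sq _ _) (swap_sq _ _) (swap_sq _ _) (swap_sq _ _) hm1' hm2'
    rw [swap_comm a c] at key
    rcases F2 hcb.ne hac.ne' hab.ne' key hef with h3 | h3 | h3
    · exfalso
      apply hmy
      rw [hm1', h3, swap_comm c a, mul_assoc, swap_mul_self, mul_one]
    · exfalso
      rw [h3] at hm1'
      have r1 := rk_swap_gen y hac.ne (c + 1) (y b + 1)
      have r2 := rk_swap_gen (y * swap a c) hab.ne (c + 1) (y b + 1)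
      rw [← hm1'] at r2
      have r3 := hym (c + 1) (y b + 1)
      simp only [Perm.mul_apply, swap_apply_left, swap_apply_of_ne_of_ne hab.ne' hcb.ne'] at r2
      have i1 : (a : ℕ) < c := hac
      have i2 : (c : ℕ) < b := hcb
      have i3 : (y a : ℕ) < y b := hyab
      have i4 : (y b : ℕ) < y c := hybc
      unfold ind at r1 r2
      split_ifs at r1 r2 <;> omega
    · rw [← h3, ← hm1']; exact hmv
  c2' := by
    intro y h0 a c b hac hcb hyca hyab h1 h2
    have hab := hac.trans hcb
    have hne : y * swap c b ≠ y * swap a b := by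
      intro h
      have h3 := congrArg (fun f : Perm (Fin n) => f a) (mul_left_cancel h)
      simp only [swap_apply_left, swap_apply_of_ne_of_ne hac.ne hab.ne] at h3
      exact hab.ne h3
    obtain ⟨m, hym, hmv, hmy, ⟨e, f, hef, hm1⟩, ⟨g, k, hgk, hm2⟩⟩ := ruleR2 H _ y rfl h0 _ _ hne
      ⟨c, b, hcb.ne, rfl⟩ ⟨a, b, hab.ne, rfl⟩ (le_swap y hcb (hyca.trans hyab))
      (le_swap y hab hyab) h1 h2
    have hm1' : m = y * swap c b * swap e f := by
      rw [hm1, mul_assoc, swap_mul_self, mul_one]
    have hm2' : m = y * swap a b * swap g k := by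
      rw [hm2, mul_assoc, swap_mul_self, mul_one]
    have key := fact_of_meet (swap_sq _ _) (swap_sq _ _) (swap_sq _ _) (swap_sq _ _) hm1' hm2'
    rw [swap_comm a b] at key
    rcases F2 hac.ne' hcb.ne hab.ne key hef with h3 | h3 | h3
    · exfalso
      apply hmy
      rw [hm1', h3, mul_assoc, swap_mul_self, mul_one]
    · exfalso
      rw [h3, swap_comm b a] at hm1'
      have r1 := rk_swap_gen y hcb.ne (a + 1) (y a)
      have r2 := rk_swap_gen (y * swap c b) hab.ne (a + 1) (y a)
      rw [← hm1'] at r2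
      have r3 := hym (a + 1) (y a)
      simp only [Perm.mul_apply, swap_apply_right, swap_apply_of_ne_of_ne hac.ne hab.ne] at r2
      have i1 : (a : ℕ) < c := hac
      have i2 : (c : ℕ) < b := hcb
      have i3 : (y c : ℕ) < y a := hyca
      have i4 : (y a : ℕ) < y b := hyab
      unfold ind at r1 r2
      split_ifs at r1 r2 <;> omega
    · rw [swap_comm a c, ← h3, ← hm1']; exact hmv

end Pool.Agent.H25.Zir
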