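import Pool.Agent.H25.Zir.WW

/-!
# The main argument in type A
-/

namespace Pool.Agent.H25.Zir

open Equiv Finset

variable {n : ℕ}

/-- a pair `(a, b)` with `x a < x b` and `a < b` contains an adjacent ascent; we take the last one -/
theorem last_ascent {x : Perm (Fin n)} {a : Fin n} : ∀ (m : ℕ) (b : Fin n), (b : ℕ) = m → a < b →
    x a < x b → ∃ i j : Fin n, (j : ℕ) = i + 1 ∧ a ≤ i ∧ j ≤ b ∧ x i < x j ∧
      ∀ e, j ≤ e → e ≤ b → x b ≤ x e ∧ x e ≤ x j := by
  intro m
  induction m with
  | zero =>
    intro b hb hab _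
    have : (a : ℕ) < b := hab
    omega
  | succ m ih =>
    intro b hb hab hx
    have hab' : (a : ℕ) < b := hab
    have hbn := b.isLt
    let b' : Fin n := ⟨m, by omega⟩
    have hb' : (b : ℕ) = (b' : ℕ) + 1 := hb
    have hlt : b' < b := adj_lt hb'
    rcases lt_or_gt_of_ne (fun h => hlt.ne (x.injective h) : x b' ≠ x b) with h | h
    · refine ⟨b', b, hb', ?_, le_rfl, h, ?_⟩
      · rw [Fin.le_def]; omega
      · intro e h1 h2
        have := le_antisymm h1 h2
        subst this
        exact ⟨le_rfl, le_rfl⟩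
    · have hne : a ≠ b' := by
        intro h1
        rw [h1] at hx
        exact lt_asymm hx h
      have hab2 : a < b' := by
        rw [Fin.lt_def]
        have : (a : ℕ) ≠ b' := fun h1 => hne (Fin.ext h1)
        omega
      obtain ⟨i, j, h1, h2, h3, h4, h5⟩ := ih b' rfl hab2 (hx.trans h)
      refine ⟨i, j, h1, h2, h3.trans hlt.le, h4, ?_⟩
      intro e h6 h7
      by_cases he : e = b
      · subst he
        exact ⟨le_rfl, h.le.trans (h5 b' h3 le_rfl).2⟩
      · have : e ≤ b' := by
          rw [Fin.le_def] at h7 ⊢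
          have : (e : ℕ) ≠ b := fun h1 => he (Fin.ext h1)
          omega
        obtain ⟨h8, h9⟩ := h5 e h6 this
        exact ⟨h.le.trans h8, h9⟩

/-- The chain argument. -/
theorem chain {x0 v : Perm (Fin n)} (R : Rules x0 v) {x : Perm (Fin n)} (h0 : Le x0 x)
    {j c : Fin n} (hjc : (c : ℕ) = j + 1) (hasc : x j < x c)
    (hxs : Le (x * swap j c) v) (hv : Le x v)
    (hPi : ∀ (a' : Fin n) (Q : ℕ), a' < j → (x a' : ℕ) < Q → Q ≤ x j → rk x c Q ≠ rk v c Q)
    {i b a : Fin n} {q t : ℕ} (hci : c ≤ i) (hib : i < b) (hq : rk x (i + 1) q = rk v (i + 1) q)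
    (hac : a < c) (hxa : (x a : ℕ) < q) (ht1 : (x c : ℕ) < t) (ht2 : t ≤ x b)
    (htz : rk x c t = rk v c t) :
    ∀ (m : ℕ) (y : Perm (Fin n)), (y c : ℕ) = m → Le x y → Le y v → (∀ k, c < k → y k = x k) →
      q ≤ y c → y c ≤ x c → Le (y * swap c b) v → False := by
  classical
  intro m
  induction m using Nat.strong_induction_on with
  | _ m ih =>
  intro y hm hxy hyv hyk hqy hyx hF
  have hcb : c < b := lt_of_le_of_lt hci hib
  have hyb : y b = x b := hyk b hcb
  have hjltc : j < c := adj_lt hjc
  -- same ranks beyond c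
  have hrk : ∀ P Q : ℕ, (c : ℕ) < P → rk y P Q = rk x P Q := by
    intro P Q hP
    exact rk_congr' (fun k hk => hyk k (by rw [Fin.lt_def]; omega)) Q
  -- the value x a
  obtain ⟨e, he⟩ : ∃ e, y e = x a := ⟨y.symm (x a), by simp⟩
  have hec : e < c := by
    rcases lt_trichotomy e c with h | h | h
    · exact h
    · exfalso
      rw [h] at he
      rw [he] at hqy
      omega
    · exfalso
      have h1 := hyk e h
      rw [he] at h1
      have := x.injective h1
      rw [this] at hac
      exact lt_asymm h hac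
  have hye : y e < y c := by
    rw [he, Fin.lt_def]; omega
  -- d = the last position below c with a smaller value
  obtain ⟨d, ⟨hdc, hyd⟩, hdmax⟩ : ∃ d : Fin n, (d < c ∧ y d < y c) ∧
      ∀ d', d' < c → y d' < y c → d' ≤ d := by
    let S : Finset (Fin n) := univ.filter (fun d => d < c ∧ y d < y c)
    have hS : S.Nonempty := ⟨e, by simp only [S, mem_filter, mem_univ, true_and]; exact ⟨hec, hye⟩⟩
    refine ⟨S.max' hS, ?_, ?_⟩
    · have := S.max'_mem hS
      simpa only [S, mem_filter, mem_univ, true_and] using this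
    · intro d' h1 h2
      exact S.le_max' d' (by simp only [S, mem_filter, mem_univ, true_and]; exact ⟨h1, h2⟩)
  have hdb : d < b := hdc.trans hcb
  have hycb : y c < y b := by
    rw [hyb, Fin.lt_def]
    have : (y c : ℕ) ≤ x c := hyx
    omega
  -- (d, c) is an up-move inside
  have hdcF : Le (y * swap d c) v := by
    rw [swap_le_iff hyv hdc hyd]
    intro P Q h1 h2 h3 h4
    by_contra hcon
    have hz : rk y P Q = rk v P Q := le_antisymm (not_lt.mp hcon) (hyv P Q)
    -- propagate to the column c
    have hprop : rk y P Q = rk y c Q := by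
      unfold rk
      apply Finset.sum_congr rfl
      intro k _
      by_cases hk : (k : ℕ) < P
      · have hk2 : (k : ℕ) < c := by omega
        simp only [hk, hk2, true_and]
      · by_cases hk2 : (k : ℕ) < c
        · have h5 : ¬ (y k : ℕ) < Q := by
            intro h6
            have h7 : y k < y c := by rw [Fin.lt_def]; omega
            have h8 : (k : ℕ) ≤ d := hdmax k hk2 h7
            omega
          simp only [hk, h5, and_false]
        · simp only [hk, hk2, false_and]
    have hmono : rk v P Q ≤ rk v c Q := by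
      unfold rk
      apply Finset.sum_le_sum
      intro k _
      unfold ind
      split_ifs <;> omega
    have hzc : rk v c Q = rk y c Q := le_antisymm (hyv c Q) (by omega)
    -- compare with x at column c
    have hs1 := rk_succ y c Q
    have hs2 := rk_succ x c Q
    have hs3 := hrk (c + 1) Q (by omega)
    have hyc' : (y c : ℕ) ≤ x c := hyx
    have hzx : rk x c Q = rk v c Q := by
      unfold ind at hs1 hs2
      split_ifs at hs1 hs2 <;> omega
    have hQj : Q ≤ x j := by
      by_contra hcon2
      have := (swap_le_iff hv hjltc hasc).1 hxs c Q (by omega) le_rfl (by omega) (by omega)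
      omega
    -- there is a' < c with x a' < Q
    obtain ⟨a', ha'1, ha'2⟩ : ∃ a' : Fin n, (a' : ℕ) < c ∧ (x a' : ℕ) < Q := by
      by_contra hcon2
      push Not at hcon2
      have hzero : rk x c Q = 0 := by
        unfold rk
        apply Finset.sum_eq_zero
        intro k _
        unfold ind
        rw [if_neg]
        rintro ⟨h5, h6⟩
        have := hcon2 k h5
        omega
      have hpos : 0 < rk y c Q := by
        unfold rk
        apply Finset.sum_pos'
        · intro k _; exact Nat.zero_le _
        · refine ⟨d, mem_univ _, ?_⟩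
          unfold ind
          rw [if_pos ⟨by exact_mod_cast hdc, h3⟩]
          exact Nat.one_pos
      omega
    have ha'j : a' < j := by
      rw [Fin.lt_def]
      have : (a' : ℕ) ≠ j := by
        intro h5
        have h6 : a' = j := Fin.ext h5
        rw [h6] at ha'2
        omega
      omega
    exact hPi a' Q ha'j ha'2 hQj hzx
  -- no zero in (c, b] x (y d, y c]
  have hnoz : ∀ P Q : ℕ, (c : ℕ) < P → P ≤ b → (y d : ℕ) < Q → Q ≤ y c → rk v P Q < rk y P Q := by
    intro P Q h1 h2 h3 h4
    by_contra hcon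
    have hz : rk y P Q = rk v P Q := le_antisymm (not_lt.mp hcon) (hyv P Q)
    have hdc' : (d : ℕ) < c := hdc
    have hcb' : (c : ℕ) < b := hcb
    have hyd' : (y d : ℕ) < y c := hyd
    have hyx' : (y c : ℕ) ≤ x c := hyx
    have hyb' : (y b : ℕ) = x b := by rw [hyb]
    rcases R.c1 y (h0.trans hxy) d c b hdc hcb hyd hycb hdcF hF with g | g
    · have e1 : (y * swap d c) c = y d := by simp
      have e2 : (y * swap d c) b = y b := by
        rw [Perm.mul_apply, swap_apply_of_ne_of_ne hdb.ne' hcb.ne']
      have h5 := (swap_le_iff hdcF hcb (by rw [e1, e2]; exact hyd.trans hycb)).1 g P Q h1 h2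
        (by rw [e1]; exact h3) (by rw [e2]; omega)
      have h6 := rk_swap y hdc hyd P Q
      unfold ind at h6
      split_ifs at h6 <;> omega
    · have e1 : (y * swap d c) d = y c := by simp
      have e2 : (y * swap d c) b = y b := by
        rw [Perm.mul_apply, swap_apply_of_ne_of_ne hdb.ne' hcb.ne']
      have h5 := (swap_le_iff hdcF hdb (by rw [e1, e2]; exact hycb)).1 g c t (by omega) (by omega)
        (by rw [e1]; omega) (by rw [e2]; omega)
      have h6 := rk_swap y hdc hyd c t
      have h7 : rk v c t ≤ rk y c t := hyv c t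
      have h8 : rk y c t ≤ rk x c t := hxy c t
      unfold ind at h6
      split_ifs at h6 <;> omega
  by_cases hdq : (y d : ℕ) < q
  · have := hnoz (i + 1) q (by have : (c : ℕ) ≤ i := hci; omega) (by have : (i : ℕ) < b := hib; omega)
      hdq hqy
    rw [hrk (i + 1) q (by have : (c : ℕ) ≤ i := hci; omega)] at this
    omega
  · have hyd' : (y d : ℕ) < y c := hyd
    have e1 : (y * swap d c) c = y d := by simp
    have e2 : (y * swap d c) b = y b := by
      rw [Perm.mul_apply, swap_apply_of_ne_of_ne hdb.ne' hcb.ne']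
    apply ih (y d) (by omega) (y * swap d c) (by rw [e1]) (hxy.trans (le_swap y hdc hyd)) hdcF
    · intro k hk
      rw [Perm.mul_apply, swap_apply_of_ne_of_ne (hdc.trans hk).ne' hk.ne']
      exact hyk k hk
    · rw [e1]; omega
    · rw [e1]; exact hyd.le.trans hyx
    · rw [swap_le_iff hdcF hcb (by rw [e1, e2]; exact hyd.trans hycb)]
      intro P Q h1 h2 h3 h4
      rw [e1] at h3
      rw [e2] at h4
      have h6 := rk_swap y hdc hyd P Q
      have h7 : rk (y * swap d c) P Q = rk y P Q := by
        unfold ind at h6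
        split_ifs at h6 <;> omega
      rw [h7]
      by_cases hQ : Q ≤ y c
      · exact hnoz P Q h1 h2 h3 hQ
      · exact (swap_le_iff hyv hcb hycb).1 hF P Q h1 h2 (by omega) h4

/-- The main theorem in type A, from the local rules. -/
theorem main {x0 v : Perm (Fin n)} (R : Rules x0 v) {x : Perm (Fin n)} (h0 : Le x0 x)
    (hv : Le x v) (hne : x ≠ v) :
    ∃ i j : Fin n, (j : ℕ) = i + 1 ∧ x i < x j ∧ (¬ Le (x * swap i j) v ∨ v j < v i) := by
  classical
  by_contra hcon
  push Not at hcon
  have hbad : ∀ i j : Fin n, (j : ℕ) = i + 1 → x i < x j → Le (x * swap i j) v ∧ v i < v j := by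
    intro i j h1 h2
    obtain ⟨h3, h4⟩ := hcon i j h1 h2
    refine ⟨h3, lt_of_le_of_ne h4 ?_⟩
    intro h5
    have := v.injective h5
    rw [this] at h1
    omega
  -- the set Pi
  let Pi : Fin n → Prop := fun i => ∃ (q : ℕ) (a : Fin n), a < i ∧ (x a : ℕ) < q ∧ q ≤ x i ∧
    rk x (i + 1) q = rk v (i + 1) q
  -- an ascent without (-) gives a member of Pi
  have hW : ∀ i j : Fin n, (hij : (j : ℕ) = i + 1) → x i < x j → Pi i ∨
      ∃ b : Fin n, ∃ t : ℕ, j < b ∧ x j < x b ∧ Le (x * swap j b) v ∧ (x j : ℕ) < t ∧ t ≤ x b ∧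
      rk x j t = rk v j t := by
    intro i j hij h2
    obtain ⟨h3, h4⟩ := hbad i j hij h2
    rcases witness R h0 hv hij h2 h3 h4 with h | h
    · exact Or.inr h
    · left
      obtain ⟨a, t, g1, g2, g3, g4, g5, g6⟩ := h
      refine ⟨t, a, g1, g4, g5, ?_⟩
      rw [hij] at g6
      exact g6
  -- Pi is nonempty
  have hne' : ∃ i, Pi i := by
    obtain ⟨a, b, hab, hxab, -, -, -, -⟩ := exists_up hv hne
    -- the last ascent of x
    let S : Finset (Fin n) := univ.filter (fun i => ∃ j : Fin n, i < j ∧ x i < x j)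
    have hS : S.Nonempty :=
      ⟨a, by simp only [S, mem_filter, mem_univ, true_and]; exact ⟨b, hab, hxab⟩⟩
    have hmem := S.max'_mem hS
    have hmax := fun k hk => S.le_max' k hk
    set p := S.max' hS with hp
    simp only [S, mem_filter, mem_univ, true_and] at hmem
    obtain ⟨r, hpr, hxpr⟩ := hmem
    obtain ⟨i, j, hij, h1, h2, h3, h4⟩ := last_ascent _ r rfl hpr hxpr
    rcases hW i j hij h3 with h | ⟨b', t, g1, g2, -⟩
    · exact ⟨i, h⟩
    · exfalso
      have : j ≤ p := hmax j (by simp only [S, mem_filter, mem_univ, true_and]; exact ⟨b', g1, g2⟩)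
      have h5 : (p : ℕ) ≤ i := h1
      have h6 : (j : ℕ) ≤ p := this
      omega
  -- the minimal element of Pi
  obtain ⟨i, hPi, hmin⟩ : ∃ i, Pi i ∧ ∀ k, k < i → ¬ Pi k := by
    let S : Finset (Fin n) := univ.filter (fun i => Pi i)
    obtain ⟨i0, hi0⟩ := hne'
    have hS : S.Nonempty := ⟨i0, by simp only [S, mem_filter, mem_univ, true_and]; exact hi0⟩
    refine ⟨S.min' hS, ?_, ?_⟩
    · have := S.min'_mem hS
      simpa only [S, mem_filter, mem_univ, true_and] using this
    · intro k hk hPk
      have := S.min'_le k (by simp only [S, mem_filter, mem_univ, true_and]; exact hPk)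
      exact absurd hk (not_lt.mpr this)
  obtain ⟨q, a, hai, hxa, hqi, hq⟩ := hPi
  have hxai : x a < x i := by rw [Fin.lt_def]; omega
  obtain ⟨j, c, hjc, haj, hci, hasc, hmid⟩ := last_ascent _ i rfl hai hxai
  have hjc' : j < c := adj_lt hjc
  have hji : j < i := lt_of_lt_of_le hjc' hci
  rcases hW j c hjc hasc with h | ⟨b, t, g1, g2, g3, g4, g5, g6⟩
  · exact hmin j hji h
  have hib : i < b := by
    by_contra hcon2
    have h5 := (hmid b g1.le (not_lt.mp hcon2)).2
    exact absurd g2 (not_lt.mpr h5)
  have hxi : (x i : ℕ) ≤ x c := (hmid c le_rfl hci).1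
  refine chain R h0 hjc hasc (hbad j c hjc hasc).1 hv ?_ hci hib hq (lt_of_le_of_lt haj hjc') hxa
    g4 g5 g6 (x c) x rfl (Le.refl x) hv (fun _ _ => rfl) (by omega) le_rfl g3
  intro a' Q h5 h6 h7 h8
  apply hmin j hji
  refine ⟨Q, a', h5, h6, h7, ?_⟩
  rw [hjc] at h8
  exact h8

end Pool.Agent.H25.Zir
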