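import Pool.Agent.H25.Zir.Two
import Pool.Agent.H25.Zir.Graph

/-!
# Special matchings preserve the Bruhat graph; rule R2
-/

namespace Pool.Agent.H25.Zir

open Equiv Finset

variable {n : ℕ} {y v : Perm (Fin n)} {M : Perm (Fin n) → Perm (Fin n)}

theorem Le.len_le {x z : Perm (Fin n)} (h : Le x z) : len x ≤ len z := by
  by_cases he : x = z
  · rw [he]
  · exact (len_lt h he).le

theorem Cov.le {x z : Perm (Fin n)} (h : Cov x z) : Le x z := h.1
theorem Cov.ne {x z : Perm (Fin n)} (h : Cov x z) : x ≠ z := h.2.1

theorem Le.eq_of_len {x z : Perm (Fin n)} (h : Le x z) (hl : len x = len z) : x = z := by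
  by_contra he
  exact absurd (len_lt h he) (by omega)

/-- a special matching restricts below `t` if `t` is matched down -/
theorem SM.below (hM : SM y v M) {t : Perm (Fin n)} (htv : Le t v)
    (hMt : Cov (M t) t) : ∀ k : ℕ, ∀ x, len t - len x = k → Le y x → Le x t → Le (M x) t := by
  intro k
  induction k using Nat.strong_induction_on with
  | _ k ih =>
    intro x hk hx hxt
    by_cases he : x = t
    · rw [he]; exact hMt.le
    · obtain ⟨x', hc, hx't⟩ := exists_cov_up hxt he
      have hl := hc.len
      have hl2 := len_lt hxt he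
      have hl3 := hx't.len_le
      have := ih (len t - len x') (by omega) x' rfl (hx.trans hc.le) hx't
      by_cases hm : M x = x'
      · rw [hm]; exact hx't
      · exact (hM.spec x x' hx (hx't.trans htv) hc hm).1.trans this

/-- a special matching restricts above `b` if `b` is matched up -/
theorem SM.above (hM : SM y v M) {b : Perm (Fin n)} (hby : Le y b)
    (hMb : Cov b (M b)) : ∀ k : ℕ, ∀ x, len x - len b = k → Le b x → Le x v → Le b (M x) := by
  intro k
  induction k using Nat.strong_induction_on with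
  | _ k ih =>
    intro x hk hx hxt
    by_cases he : b = x
    · rw [← he]; exact hMb.le
    · obtain ⟨x', hbx', hc⟩ := exists_cov_down hx he
      have hl := hc.len
      have hl2 := len_lt hx he
      have hl3 := hbx'.len_le
      have := ih (len x' - len b) (by omega) x' rfl hbx' (hc.le.trans hxt)
      by_cases hm : M x' = x
      · have h1 := hM.invol x' (hby.trans hbx') (hc.le.trans hxt)
        rw [hm] at h1
        rw [h1]; exact hbx'
      · exact this.trans (hM.spec x' x (hby.trans hbx') hxt hc hm).1

theorem SM.lenc (hM : SM y v M) {x : Perm (Fin n)} (h1 : Le y x) (h2 : Le x v) :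
    len (M x) = len x + 1 ∧ Cov x (M x) ∨ len x = len (M x) + 1 ∧ Cov (M x) x := by
  rcases hM.cov x h1 h2 with h | h
  · exact Or.inl ⟨h.len, h⟩
  · exact Or.inr ⟨h.len, h⟩

theorem SM.inj (hM : SM y v M) {x z : Perm (Fin n)} (h1 : Le y x) (h2 : Le x v)
    (h3 : Le y z) (h4 : Le z v) (h : M x = M z) : x = z := by
  rw [← hM.invol x h1 h2, ← hM.invol z h3 h4, h]

theorem SM.sign (hM : SM y v M) {x : Perm (Fin n)} (h1 : Le y x) (h2 : Le x v) :
    Perm.sign (M x) = - Perm.sign x := by
  rcases hM.cov x h1 h2 with h | h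
  · exact h.sign
  · rw [h.sign, neg_neg]

/-- covers are preserved -/
theorem SM.jn_cov (hM : SM y v M) {p q : Perm (Fin n)} (hp : Le y p) (hq : Le q v)
    (hc : Cov p q) : Jn (M p) (M q) := by
  have hpv : Le p v := hc.le.trans hq
  have hyq : Le y q := hp.trans hc.le
  by_cases hm : M p = q
  · have := hM.invol p hp hpv
    rw [hm] at this
    rw [hm, this]
    exact hc.jn.symm
  obtain ⟨hle, hne⟩ := hM.spec p q hp hq hc hm
  have hlt := len_lt hle hne
  have hl := hc.len
  rcases hM.lenc hp hpv with ⟨e1, c1⟩ | ⟨e1, c1⟩ <;> rcases hM.lenc hyq hq with ⟨e2, c2⟩ | ⟨e2, c2⟩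
  · exact (cov_of_len hle (by omega)).jn
  · omega
  · -- the hard case: `M p` below `p` below `q` below `M q`
    set B := M p with hB
    set T := M q with hT
    obtain ⟨hyB, hBv⟩ := hM.maps p hp hpv
    obtain ⟨hyT, hTv⟩ := hM.maps q hyq hq
    have hMB : M B = p := hM.invol p hp hpv
    have hMT : M T = q := hM.invol q hyq hq
    have hBq : Le B q := c1.le.trans hc.le
    obtain ⟨a1, a2, h12, hBa1, ha1q, hla1, hBa2, ha2q, hla2⟩ :=
      two_middles hBq (by omega)
    obtain ⟨a, hap, hBa, haq, hla⟩ : ∃ a, a ≠ p ∧ Le B a ∧ Le a q ∧ len a = len B + 1 := by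
      by_cases h : a1 = p
      · exact ⟨a2, fun h' => h12 (h.trans h'.symm), hBa2, ha2q, hla2⟩
      · exact ⟨a1, h, hBa1, ha1q, hla1⟩
    have hya := hyB.trans hBa
    have hav := haq.trans hq
    have hBa' : Cov B a := cov_of_len hBa hla
    have haq' : Cov a q := cov_of_len haq (by omega)
    -- `M a`
    obtain ⟨hyMa, hMav⟩ := hM.maps a hya hav
    have hMBc : Cov B (M B) := by rw [hMB]; exact c1
    have hBMa : Le B (M a) := hM.above hyB hMBc _ a rfl hBa hav
    have hMTc : Cov (M T) T := by rw [hMT]; exact c2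
    have hMaT : Le (M a) T := hM.below hTv hMTc _ a rfl hya (haq.trans c2.le)
    have hup : len (M a) = len a + 1 ∧ Cov a (M a) := by
      rcases hM.lenc hya hav with h | h
      · exact h
      · exfalso
        have h1 : B = M a := hBMa.eq_of_len (by omega)
        have h2 : M B = M (M a) := by rw [← h1]
        rw [hMB, hM.invol a hya hav] at h2
        exact hap h2.symm
    obtain ⟨hlMa, hcMa⟩ := hup
    -- `p` below `M a`
    have hpMa : Le p (M a) := by
      have := (hM.spec B a hyB hav hBa' (by rw [hMB]; exact hap.symm)).1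
      rw [hMB] at this
      exact this
    have hpMa' : Cov p (M a) := cov_of_len hpMa (by omega)
    have hMaT' : Cov (M a) T := cov_of_len hMaT (by omega)
    have hqMa : q ≠ M a := by
      intro h
      have h1 := hM.invol a hya hav
      rw [← h] at h1
      have : len T = len a := by rw [hT, h1]
      omega
    refine star (o1 := p) (o2 := a) (e1 := B) (e2 := q) (e3 := M a) hap.symm ?_ ?_ hqMa
      c1.jn.symm hc.jn hpMa'.jn hBa'.jn.symm haq'.jn hcMa.jn c2.jn hMaT'.jn
    · intro h; have := congrArg len h; omega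
    · intro h; have := congrArg len h; omega
  · exact (cov_of_len hle (by omega)).jn

theorem swap_id1 {a c b : Fin n} (hac : a ≠ c) (hcb : c ≠ b) (hab : a ≠ b) :
    swap c b * swap a b = swap a c * swap c b := by
  ext x
  simp only [Perm.mul_apply, swap_apply_def]
  split_ifs <;> simp_all

theorem swap_id2 {a c b : Fin n} (hac : a ≠ c) (hcb : c ≠ b) (hab : a ≠ b) :
    swap c b * swap a c = swap a c * swap a b := by
  ext x
  simp only [Perm.mul_apply, swap_apply_def]
  split_ifs <;> simp_all

theorem swap_id3 {a c b : Fin n} (hac : a ≠ c) (hcb : c ≠ b) (hab : a ≠ b) :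
    swap a c * swap c b * swap a c = swap a b := by
  ext x
  simp only [Perm.mul_apply, swap_apply_def]
  split_ifs <;> simp_all

theorem swap_id4 {a c b : Fin n} (hac : a ≠ c) (hcb : c ≠ b) (hab : a ≠ b) :
    swap a c * swap a b * swap c b = swap a b := by
  ext x
  simp only [Perm.mul_apply, swap_apply_def]
  split_ifs <;> simp_all

/-- orientation of a joined comparable pair -/
theorem Jn.orient {p q : Perm (Fin n)} (h : Jn p q) (hle : Le p q) :
    ∃ a b : Fin n, a < b ∧ p a < p b ∧ q = p * swap a b := by
  obtain ⟨a, b, hab, rfl⟩ := h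
  have key : ∀ a b : Fin n, a < b → Le p (p * swap a b) → p a < p b := by
    intro a b hab hle
    by_contra hcon
    have h1 : p b < p a := lt_of_le_of_ne (not_lt.mp hcon) (fun h => hab.ne (p.injective h.symm))
    have h2 := le_swap (p * swap a b) hab (by simpa using h1)
    rw [mul_assoc, swap_mul_self, mul_one] at h2
    exact (Jn.ne ⟨a, b, hab.ne, rfl⟩) (Le.antisymm hle h2)
  rcases lt_or_gt_of_ne hab with h | h
  · exact ⟨a, b, h, key a b h hle, rfl⟩
  · rw [swap_comm] at hle ⊢
    exact ⟨b, a, h, key b a h hle, rfl⟩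

theorem SM.jn_le (hM : SM y v M) : ∀ k : ℕ, ∀ p q : Perm (Fin n), len q - len p = k → Le y p →
    Le q v → Le p q → Jn p q → Jn (M p) (M q) := by
  intro k
  induction k using Nat.strong_induction_on with
  | _ k ih =>
    intro p q hk hp hq hle hj
    obtain ⟨a, b, hab, hpab, rfl⟩ := hj.orient hle
    by_cases hmid : ∀ c, a < c → c < b → ¬ (p a < p c ∧ p c < p b)
    · exact hM.jn_cov hp hq (cov_of_len hle (len_swap_cov hab hpab hmid))
    push Not at hmid
    obtain ⟨c, hac, hcb, hpac, hpcb⟩ := hmid
    have nac := hac.ne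
    have ncb := hcb.ne
    have nab := hab.ne
    set o1 := p * swap c b with ho1
    set o2 := p * swap a c with ho2
    set e2 := p * swap a c * swap c b with he2
    set e3 := p * swap a c * swap a b with he3
    set o3 := p * swap a b with ho3
    -- edges
    have v1a : o1 a = p a := by rw [ho1, Perm.mul_apply, swap_apply_of_ne_of_ne nac nab]
    have v1c : o1 c = p b := by rw [ho1, Perm.mul_apply, swap_apply_left]
    have v1b : o1 b = p c := by rw [ho1, Perm.mul_apply, swap_apply_right]
    have v2a : o2 a = p c := by rw [ho2, Perm.mul_apply, swap_apply_left]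
    have v2c : o2 c = p a := by rw [ho2, Perm.mul_apply, swap_apply_right]
    have v2b : o2 b = p b := by rw [ho2, Perm.mul_apply, swap_apply_of_ne_of_ne nab.symm ncb.symm]
    have e2' : e2 = o2 * swap c b := rfl
    have e3' : e3 = o2 * swap a b := rfl
    have w2a : e2 a = p c := by rw [e2', Perm.mul_apply, swap_apply_of_ne_of_ne nac nab, v2a]
    have w2c : e2 c = p b := by rw [e2', Perm.mul_apply, swap_apply_left, v2b]
    have w2b : e2 b = p a := by rw [e2', Perm.mul_apply, swap_apply_right, v2c]
    have w3a : e3 a = p b := by rw [e3', Perm.mul_apply, swap_apply_left, v2b]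
    have w3c : e3 c = p a := by rw [e3', Perm.mul_apply, swap_apply_of_ne_of_ne nac.symm ncb, v2c]
    have w3b : e3 b = p c := by rw [e3', Perm.mul_apply, swap_apply_right, v2a]
    have L1 : Le p o1 := le_swap p hcb hpcb
    have L2 : Le p o2 := le_swap p hac hpac
    have q12 : e2 = o1 * swap a b := by
      rw [ho1, he2, mul_assoc, mul_assoc, swap_id1 nac ncb nab]
    have q13 : e3 = o1 * swap a c := by
      rw [ho1, he3, mul_assoc, mul_assoc, swap_id2 nac ncb nab]
    have q23 : o3 = e2 * swap a c := by
      rw [ho3, he2, mul_assoc, mul_assoc, ← mul_assoc (swap a c), swap_id3 nac ncb nab]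
    have q33 : o3 = e3 * swap c b := by
      rw [ho3, he3, mul_assoc, mul_assoc, ← mul_assoc (swap a c), swap_id4 nac ncb nab]
    have L12 : Le o1 e2 := by rw [q12]; exact le_swap o1 hab (by rw [v1a, v1b]; exact hpac)
    have L13 : Le o1 e3 := by rw [q13]; exact le_swap o1 hac (by rw [v1a, v1c]; exact hpab)
    have L22 : Le o2 e2 := by rw [e2']; exact le_swap o2 hcb (by rw [v2c, v2b]; exact hpab)
    have L23 : Le o2 e3 := by rw [e3']; exact le_swap o2 hab (by rw [v2a, v2b]; exact hpcb)
    have L32 : Le e2 o3 := by rw [q23]; exact le_swap e2 hac (by rw [w2a, w2c]; exact hpcb)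
    have L33 : Le e3 o3 := by rw [q33]; exact le_swap e3 hcb (by rw [w3c, w3b]; exact hpac)
    have J1 : Jn p o1 := ⟨c, b, ncb, rfl⟩
    have J2 : Jn p o2 := ⟨a, c, nac, rfl⟩
    have J12 : Jn o1 e2 := ⟨a, b, nab, q12⟩
    have J13 : Jn o1 e3 := ⟨a, c, nac, q13⟩
    have J22 : Jn o2 e2 := ⟨c, b, ncb, e2'⟩
    have J23 : Jn o2 e3 := ⟨a, b, nab, e3'⟩
    have J32 : Jn e2 o3 := ⟨a, c, nac, q23⟩
    have J33 : Jn e3 o3 := ⟨c, b, ncb, q33⟩
    have l1 := len_lt L1 J1.ne
    have l2 := len_lt L2 J2.ne
    have l12 := len_lt L12 J12.ne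
    have l13 := len_lt L13 J13.ne
    have l22 := len_lt L22 J22.ne
    have l23 := len_lt L23 J23.ne
    have l32 := len_lt L32 J32.ne
    have l33 := len_lt L33 J33.ne
    have hy1 := hp.trans L1
    have hy2 := hp.trans L2
    have hy2e := hy2.trans L22
    have hy3e := hy2.trans L23
    have hv2 := L32.trans hq
    have hv3 := L33.trans hq
    have h1v := L12.trans hv2
    have h2v := L22.trans hv2
    have hpv := L1.trans h1v
    have hyq := hy2e.trans L32
    have R1 := ih (len o1 - len p) (by omega) p o1 rfl hp h1v L1 J1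
    have R2 := ih (len o2 - len p) (by omega) p o2 rfl hp h2v L2 J2
    have R12 := ih (len e2 - len o1) (by omega) o1 e2 rfl hy1 hv2 L12 J12
    have R13 := ih (len e3 - len o1) (by omega) o1 e3 rfl hy1 hv3 L13 J13
    have R22 := ih (len e2 - len o2) (by omega) o2 e2 rfl hy2 hv2 L22 J22
    have R23 := ih (len e3 - len o2) (by omega) o2 e3 rfl hy2 hv3 L23 J23
    have R32 := ih (len o3 - len e2) (by omega) e2 o3 rfl hy2e hq L32 J32
    have R33 := ih (len o3 - len e3) (by omega) e3 o3 rfl hy3e hq L33 J33
    -- distinctness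
    have d12 : o1 ≠ o2 := by
      intro h
      have := congrArg (fun f : Perm (Fin n) => f a) h
      simp only [v1a, v2a] at this
      exact hpac.ne this
    have de2 : p ≠ e2 := by intro h; rw [← h] at l12; omega
    have de3 : p ≠ e3 := by intro h; rw [← h] at l13; omega
    have de23 : e2 ≠ e3 := by
      intro h
      have := congrArg (fun f : Perm (Fin n) => f a) h
      simp only [w2a, w3a] at this
      exact hpcb.ne this
    refine star (o1 := M o1) (o2 := M o2) (o3 := M o3) (e1 := M p) (e2 := M e2) (e3 := M e3)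
      ?_ ?_ ?_ ?_ R1.symm R12 R13 R2.symm R22 R23 R32 R33
    · intro h; exact d12 (hM.inj hy1 h1v hy2 h2v h)
    · intro h; exact de2 (hM.inj hp hpv hy2e hv2 h)
    · intro h; exact de3 (hM.inj hp hpv hy3e hv3 h)
    · intro h; exact de23 (hM.inj hy2e hv2 hy3e hv3 h)

/-- joined elements are comparable -/
theorem Jn.total {p q : Perm (Fin n)} (h : Jn p q) : Le p q ∨ Le q p := by
  obtain ⟨a, b, hab, rfl⟩ := h
  have key : ∀ a b : Fin n, a < b → Le p (p * swap a b) ∨ Le (p * swap a b) p := by
    intro a b hab
    rcases lt_or_gt_of_ne (fun h => hab.ne (p.injective h) : p a ≠ p b) with h | h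
    · exact Or.inl (le_swap p hab h)
    · right
      have h2 := le_swap (p * swap a b) hab (by simpa using h)
      rw [mul_assoc, swap_mul_self, mul_one] at h2
      exact h2
  rcases lt_or_gt_of_ne hab with h | h
  · exact key a b h
  · rw [swap_comm]; exact key b a h

/-- Lemma E: a special matching preserves the Bruhat graph. -/
theorem lemmaE (hM : SM y v M) {p q : Perm (Fin n)} (hp : Le y p) (hpv : Le p v) (hq : Le y q)
    (hqv : Le q v) (h : Jn p q) : Jn (M p) (M q) := by
  rcases h.total with hle | hle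
  · exact hM.jn_le _ p q rfl hp hqv hle h
  · exact (hM.jn_le _ q p rfl hq hpv hle h.symm).symm

/-- Rule R2 -/
theorem ruleR2 {x0 v : Perm (Fin n)} (H : DZ x0 v) : ∀ k : ℕ, ∀ y : Perm (Fin n),
    len v - len y = k → Le x0 y → ∀ a b : Perm (Fin n), a ≠ b → Jn y a → Jn y b → Le y a → Le y b →
    Le a v → Le b v → ∃ m, Le y m ∧ Le m v ∧ m ≠ y ∧ Jn m a ∧ Jn m b := by
  intro k
  induction k using Nat.strong_induction_on with
  | _ k ih =>
    intro y hk h0 a b hab ja jb hya hyb hav hbv
    have hyv : Le y v := hya.trans hav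
    have hne : y ≠ v := by
      intro h
      have : a = v := Le.antisymm hav (h ▸ hya)
      exact ja.ne (h.trans this.symm)
    obtain ⟨M, hM⟩ := H y h0 hyv hne
    have hyy := Le.refl y
    obtain ⟨hyMa, hMav⟩ := hM.maps a hya hav
    obtain ⟨hyMb, hMbv⟩ := hM.maps b hyb hbv
    obtain ⟨hyc, hcv⟩ := hM.maps y hyy hyv
    have hMy := hM.invol y hyy hyv
    have hMa := hM.invol a hya hav
    have hMb := hM.invol b hyb hbv
    have hcyc : Cov y (M y) := by
      rcases hM.cov y hyy hyv with h | h
      · exact h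
      · exact absurd (Le.antisymm hyc h.le) h.ne.symm
    have Ea := lemmaE hM hyy hyv hya hav ja
    have Eb := lemmaE hM hyy hyv hyb hbv jb
    have hjn : ∀ x, Le y x → Le x v → Jn x (M x) := by
      intro x h1 h2
      rcases hM.cov x h1 h2 with h | h
      · exact h.jn
      · exact h.jn.symm
    by_cases hca : M y = a
    · refine ⟨M b, hyMb, hMbv, ?_, ?_, (hjn b hyb hbv).symm⟩
      · intro h
        rw [h] at hMb
        exact hab (hca.symm.trans hMb)
      · rw [← hca]; exact Eb.symm
    by_cases hcb : M y = b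
    · refine ⟨M a, hyMa, hMav, ?_, (hjn a hya hav).symm, ?_⟩
      · intro h
        rw [h] at hMa
        exact hab (hMa.symm.trans hcb)
      · rw [← hcb]; exact Ea.symm
    -- general case
    have up : ∀ x, Le y x → Le x v → Jn y x → M y ≠ x → Le (M y) (M x) := by
      intro x h1 h2 hj hcx
      have Ex := lemmaE hM hyy hyv h1 h2 hj
      rcases Ex.total with h | h
      · exact h
      · exfalso
        rcases hcyc.2.2 (M x) (hM.maps x h1 h2).1 h with h3 | h3
        · have := hM.invol x h1 h2
          rw [h3] at this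
          exact hcx this
        · exact Ex.ne h3.symm
    have hca' := up a hya hav ja hca
    have hcb' := up b hyb hbv jb hcb
    have hl1 := hcyc.len
    have hl2 := hcv.len_le
    obtain ⟨m', h1, h2, h3, h4, h5⟩ := ih (len v - len (M y)) (by omega) (M y) rfl
      (h0.trans hyc) (M a) (M b) (fun h => hab (hM.inj hya hav hyb hbv h)) Ea Eb hca' hcb' hMav hMbv
    have hym' := hyc.trans h1
    obtain ⟨k1, k2⟩ := hM.maps m' hym' h2
    refine ⟨M m', k1, k2, ?_, ?_, ?_⟩
    · intro h
      have := hM.invol m' hym' h2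
      rw [h] at this
      exact h3 this.symm
    · have := lemmaE hM hym' h2 hyMa hMav h4
      rw [hMa] at this
      exact this
    · have := lemmaE hM hym' h2 hyMb hMbv h5
      rw [hMb] at this
      exact this

end Pool.Agent.H25.Zir
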