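import Mathlib

/-!
# Bruhat order, special matchings and zircons for a group with a family of generators
-/

namespace Pool.Agent.H25.Zir

/-- the smallest length of a word in the generators `s i` with product `w` -/
noncomputable def wlen {W : Type} [Group W] {B : Type} (s : B → W) (w : W) : ℕ :=
  sInf {k : ℕ | ∃ l : List B, l.length = k ∧ (l.map s).prod = w}

/-- the reflections: conjugates of the generators -/
def IsRefl {W : Type} [Group W] {B : Type} (s : B → W) (t : W) : Prop :=
  ∃ (g : W) (i : B), t = g * s i * g⁻¹

/-- the Bruhat order: generated by `x → t x` with `t` a reflection and `t x` longer than `x` -/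
def Bruhat {W : Type} [Group W] {B : Type} (s : B → W) (u w : W) : Prop :=
  Relation.ReflTransGen (fun x y => ∃ t, IsRefl s t ∧ y = t * x ∧ wlen s x < wlen s y) u w

/-- covering relation of the Bruhat order -/
def Covers {W : Type} [Group W] {B : Type} (s : B → W) (x y : W) : Prop :=
  Bruhat s x y ∧ x ≠ y ∧ ∀ z, Bruhat s x z → Bruhat s z y → z = x ∨ z = y

/-- `M` restricts to a special matching of the interval `[u, w]` -/
structure IsSpecialMatching {W : Type} [Group W] {B : Type} (s : B → W) (u w : W)
    (M : W → W) : Prop where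
  /-- `M` maps `[u, w]` to itself -/
  maps : ∀ x, Bruhat s u x → Bruhat s x w → Bruhat s u (M x) ∧ Bruhat s (M x) w
  /-- `M` is an involution of `[u, w]` -/
  invol : ∀ x, Bruhat s u x → Bruhat s x w → M (M x) = x
  /-- `M` matches along covers -/
  covers : ∀ x, Bruhat s u x → Bruhat s x w → Covers s x (M x) ∨ Covers s (M x) x
  /-- `x` covered by `y` and `M x ≠ y` imply `M x < M y` -/
  special : ∀ x y, Bruhat s u x → Bruhat s x w → Bruhat s u y → Bruhat s y w →
    Covers s x y → M x ≠ y → Bruhat s (M x) (M y) ∧ M x ≠ M y

/-- `[u, w]` is a zircon -/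
def IsZircon {W : Type} [Group W] {B : Type} (s : B → W) (u w : W) : Prop :=
  Bruhat s u w ∧
    ∀ v, Bruhat s u v → Bruhat s v w → v ≠ u → ∃ M : W → W, IsSpecialMatching s u v M

/-- the simple reflections of type `A_m`: adjacent transpositions of `Fin (m + 1)` -/
def adj (m : ℕ) (i : Fin m) : Equiv.Perm (Fin (m + 1)) := Equiv.swap i.castSucc i.succ

end Pool.Agent.H25.Zir
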