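import Mathlib

/-!
# Rank functions of permutations and the order they define
-/

namespace Pool.Agent.H25.Zir

open Equiv Finset

variable {n : ℕ}

/-- indicator -/
def ind (P : Prop) [Decidable P] : ℕ := if P then 1 else 0

/-- the number of the first `p` positions whose value is among the first `q` values -/
def rk (y : Perm (Fin n)) (p q : ℕ) : ℕ := ∑ c : Fin n, ind ((c : ℕ) < p ∧ (y c : ℕ) < q)

/-- the rank order -/
def Le (y z : Perm (Fin n)) : Prop := ∀ p q, rk z p q ≤ rk y p q

theorem Le.refl (y : Perm (Fin n)) : Le y y := fun _ _ => le_rfl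
theorem Le.trans {x y z : Perm (Fin n)} (h1 : Le x y) (h2 : Le y z) : Le x z :=
  fun p q => (h2 p q).trans (h1 p q)

/-- general effect of a transposition -/
theorem rk_swap_gen (y : Perm (Fin n)) {a b : Fin n} (hab : a ≠ b) (p q : ℕ) :
    rk (y * swap a b) p q + ind ((a : ℕ) < p ∧ (y a : ℕ) < q) + ind ((b : ℕ) < p ∧ (y b : ℕ) < q)
      = rk y p q + ind ((a : ℕ) < p ∧ (y b : ℕ) < q) + ind ((b : ℕ) < p ∧ (y a : ℕ) < q) := by
  have hb : b ∈ (univ : Finset (Fin n)).erase a := by simp [hab.symm]
  have key : ∀ f : Fin n → ℕ, ∑ c, f c = f a + (f b + ∑ c ∈ ((univ : Finset (Fin n)).erase a).erase b, f c) := by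
    intro f
    rw [Finset.add_sum_erase _ _ hb, Finset.add_sum_erase _ _ (mem_univ a)]
  unfold rk
  rw [key, key (fun c => ind ((c : ℕ) < p ∧ (y c : ℕ) < q))]
  have h : ∑ c ∈ ((univ : Finset (Fin n)).erase a).erase b,
        ind ((c : ℕ) < p ∧ ((y * swap a b) c : ℕ) < q)
      = ∑ c ∈ ((univ : Finset (Fin n)).erase a).erase b, ind ((c : ℕ) < p ∧ (y c : ℕ) < q) := by
    apply Finset.sum_congr rfl
    intro c hc
    simp only [mem_erase, mem_univ, and_true] at hc
    rw [Perm.mul_apply, swap_apply_of_ne_of_ne hc.2 hc.1]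
  rw [h]
  simp only [Perm.mul_apply, swap_apply_left, swap_apply_right]
  ring

/-- an up-move lowers the rank by one exactly on a rectangle -/
theorem rk_swap (y : Perm (Fin n)) {a b : Fin n} (hab : a < b) (hy : y a < y b) (p q : ℕ) :
    rk (y * swap a b) p q +
      ind (((a : ℕ) < p ∧ p ≤ b) ∧ ((y a : ℕ) < q ∧ q ≤ y b)) = rk y p q := by
  have h := rk_swap_gen y hab.ne p q
  have h1 : (a : ℕ) < b := hab
  have h2 : (y a : ℕ) < y b := hy
  unfold ind at *
  split_ifs at * <;> omega

theorem le_swap (y : Perm (Fin n)) {a b : Fin n} (hab : a < b) (hy : y a < y b) :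
    Le y (y * swap a b) := fun p q => by
  have := rk_swap y hab hy p q; omega

/-- membership criterion for an up-move -/
theorem swap_le_iff {y v : Perm (Fin n)} (hv : Le y v) {a b : Fin n} (hab : a < b) (hy : y a < y b) :
    Le (y * swap a b) v ↔
      ∀ p q, (a : ℕ) < p → p ≤ b → (y a : ℕ) < q → q ≤ y b → rk v p q < rk y p q := by
  constructor
  · intro h p q h1 h2 h3 h4
    have := rk_swap y hab hy p q
    have h5 := h p q
    unfold ind at this
    rw [if_pos ⟨⟨h1, h2⟩, h3, h4⟩] at this
    omega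
  · intro h p q
    have := rk_swap y hab hy p q
    unfold ind at this
    split_ifs at this with hh
    · have := h p q hh.1.1 hh.1.2 hh.2.1 hh.2.2; omega
    · have := hv p q; omega

theorem rk_succ (y : Perm (Fin n)) (a : Fin n) (q : ℕ) :
    rk y ((a : ℕ) + 1) q = rk y a q + ind ((y a : ℕ) < q) := by
  unfold rk
  rw [← Finset.add_sum_erase _ _ (mem_univ a), ← Finset.add_sum_erase _ _ (mem_univ a)]
  have h : ∑ c ∈ (univ : Finset (Fin n)).erase a, ind ((c : ℕ) < (a : ℕ) + 1 ∧ (y c : ℕ) < q)
      = ∑ c ∈ (univ : Finset (Fin n)).erase a, ind ((c : ℕ) < (a : ℕ) ∧ (y c : ℕ) < q) := by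
    apply Finset.sum_congr rfl
    intro c hc
    simp only [mem_erase, mem_univ, and_true] at hc
    have : (c : ℕ) ≠ a := fun h => hc (Fin.ext h)
    have e : ((c : ℕ) < (a : ℕ) + 1 ∧ (y c : ℕ) < q) ↔ ((c : ℕ) < (a : ℕ) ∧ (y c : ℕ) < q) := by
      constructor <;> rintro ⟨h1, h2⟩ <;> exact ⟨by omega, h2⟩
    unfold ind
    simp only [e]
  rw [h]
  unfold ind
  simp only [lt_add_iff_pos_right, zero_lt_one, true_and, lt_irrefl, false_and, if_false, zero_add]
  ring

theorem rk_zero (y : Perm (Fin n)) (q : ℕ) : rk y 0 q = 0 := by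
  unfold rk ind; simp

/-- ranks agree on an initial segment where the permutations agree -/
theorem rk_congr {y z : Perm (Fin n)} {p : ℕ} (h : ∀ c : Fin n, (c : ℕ) < p → y c = z c) (q : ℕ) :
    rk y p q = rk z p q := by
  unfold rk
  apply Finset.sum_congr rfl
  intro c _
  by_cases hc : (c : ℕ) < p
  · rw [h c hc]
  · unfold ind; simp [hc]

theorem rk_n (y : Perm (Fin n)) (q : ℕ) : rk y n q = rk (1 : Perm (Fin n)) n q := by
  unfold rk
  simp only [Fin.is_lt, true_and, Perm.one_apply]
  exact Equiv.sum_comp y (fun c : Fin n => ind ((c : ℕ) < q))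

theorem Le.antisymm {y z : Perm (Fin n)} (h1 : Le y z) (h2 : Le z y) : y = z := by
  have h : ∀ p q, rk y p q = rk z p q := fun p q => le_antisymm (h2 p q) (h1 p q)
  ext a
  have h3 : ∀ q, ind ((y a : ℕ) < q) = ind ((z a : ℕ) < q) := by
    intro q
    have e1 := rk_succ y a q
    have e2 := rk_succ z a q
    have e3 := h (a + 1) q
    have e4 := h a q
    omega
  have h4 := h3 ((y a : ℕ) + 1)
  have h5 := h3 ((z a : ℕ) + 1)
  unfold ind at h4 h5
  split_ifs at h4 h5 <;> omega

/-- ranks agree from a final segment where the permutations agree -/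
theorem rk_congr' {y z : Perm (Fin n)} {p : ℕ} (h : ∀ c : Fin n, p ≤ (c : ℕ) → y c = z c) (q : ℕ) :
    rk y p q = rk z p q := by
  have key : ∀ w : Perm (Fin n), rk w p q + ∑ c : Fin n, ind (p ≤ (c : ℕ) ∧ (w c : ℕ) < q)
      = rk w n q := by
    intro w
    unfold rk
    rw [← Finset.sum_add_distrib]
    apply Finset.sum_congr rfl
    intro c _
    have := c.is_lt
    unfold ind
    split_ifs <;> omega
  have e1 := key y
  have e2 := key z
  rw [rk_n y] at e1
  rw [rk_n z] at e2
  have e3 : ∑ c : Fin n, ind (p ≤ (c : ℕ) ∧ (y c : ℕ) < q)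
      = ∑ c : Fin n, ind (p ≤ (c : ℕ) ∧ (z c : ℕ) < q) := by
    apply Finset.sum_congr rfl
    intro c _
    by_cases hc : p ≤ (c : ℕ)
    · rw [h c hc]
    · unfold ind; simp [hc]
  omega

/-- positions beyond `n` do not count -/
theorem rk_ge (y : Perm (Fin n)) {p : ℕ} (hp : n ≤ p) (q : ℕ) : rk y p q = rk y n q := by
  unfold rk
  apply Finset.sum_congr rfl
  intro c _
  have := c.is_lt
  unfold ind
  split_ifs <;> omega

/-- first difference, upper version: from below one can move up, by a cover. -/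
theorem exists_up {x v : Perm (Fin n)} (h : Le x v) (hne : x ≠ v) :
    ∃ a b : Fin n, a < b ∧ x a < x b ∧ (∀ c, c < a → x c = v c) ∧ x b ≤ v a ∧
      (∀ c, a < c → c < b → ¬ (x a < x c ∧ x c ≤ v a)) ∧ Le (x * swap a b) v := by
  classical
  have hex : ∃ a, x a ≠ v a := by
    by_contra hc
    push Not at hc
    exact hne (Equiv.ext hc)
  -- first difference
  obtain ⟨a, ha, hamin⟩ : ∃ a, x a ≠ v a ∧ ∀ c, c < a → x c = v c := by
    let S := univ.filter (fun a : Fin n => x a ≠ v a)
    have hS : S.Nonempty := by obtain ⟨a, ha⟩ := hex; exact ⟨a, by simp [S, ha]⟩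
    refine ⟨S.min' hS, ?_, ?_⟩
    · have := S.min'_mem hS
      simp only [S, mem_filter, mem_univ, true_and] at this
      exact this
    · intro c hc
      by_contra hcc
      have : c ∈ S := by simp [S, hcc]
      exact absurd (S.min'_le c this) (not_le.mpr hc)
  have hpre : ∀ q, rk x a q = rk v a q := fun q => rk_congr (fun c hc => hamin c hc) q
  have hlt : x a < v a := by
    have e1 := rk_succ x a ((v a : ℕ))
    have e2 := rk_succ v a ((v a : ℕ))
    have e3 := rk_succ x a ((x a : ℕ) + 1)
    have e4 := rk_succ v a ((x a : ℕ) + 1)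
    have e5 := h (a + 1) ((x a : ℕ) + 1)
    have e6 := h (a + 1) ((v a : ℕ) + 1)
    have e7 := rk_succ x a ((v a : ℕ) + 1)
    have e8 := rk_succ v a ((v a : ℕ) + 1)
    have p1 := hpre ((x a : ℕ) + 1)
    have p2 := hpre ((v a : ℕ) + 1)
    have hne' : (x a : ℕ) ≠ v a := fun hh => ha (Fin.ext hh)
    unfold ind at *
    rw [Fin.lt_def]
    split_ifs at * <;> omega
  -- first position to the right with value in (x a, v a]
  obtain ⟨b, ⟨hb1, hb2, hb3⟩, hbmin⟩ : ∃ b, (a < b ∧ x a < x b ∧ x b ≤ v a) ∧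
      ∀ c, a < c → c < b → ¬ (x a < x c ∧ x c ≤ v a) := by
    let S := univ.filter (fun b : Fin n => a < b ∧ x a < x b ∧ x b ≤ v a)
    have hS : S.Nonempty := by
      refine ⟨x.symm (v a), ?_⟩
      simp only [S, mem_filter, mem_univ, true_and, Equiv.apply_symm_apply, le_refl, and_true]
      refine ⟨?_, hlt⟩
      rcases lt_trichotomy a (x.symm (v a)) with h1 | h1 | h1
      · exact h1
      · exfalso; rw [h1] at ha; rw [← h1] at ha; apply ha
        have : x a = v a := by
          conv_lhs => rw [h1]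
          simp
        exact this
      · exfalso
        have := hamin _ h1
        rw [Equiv.apply_symm_apply] at this
        have := v.injective this
        rw [← this] at h1
        exact lt_irrefl _ h1
    refine ⟨S.min' hS, ?_, ?_⟩
    · have := S.min'_mem hS
      simp only [S, mem_filter, mem_univ, true_and] at this
      exact this
    · intro c hc1 hc2 hcc
      have : c ∈ S := by simp [S, hc1, hcc.1, hcc.2]
      exact absurd (S.min'_le c this) (not_le.mpr hc2)
  refine ⟨a, b, hb1, hb2, hamin, hb3, hbmin, ?_⟩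
  rw [swap_le_iff h hb1 hb2]
  intro p q hp1 hp2 hq1 hq2
  -- induction on p
  have hb3' : (x b : ℕ) ≤ v a := hb3
  have hclaim : ∀ k : ℕ, (a : ℕ) + 1 + k ≤ b →
      (rk v (a + 1 + k) q + 1 + rk x (a + 1 + k) (v a + 1) ≤
        rk x (a + 1 + k) q + rk v (a + 1 + k) (v a + 1)) := by
    intro k
    induction k with
    | zero =>
      intro _
      have e1 := rk_succ x a q
      have e2 := rk_succ v a q
      have e3 := rk_succ x a (v a + 1)
      have e4 := rk_succ v a (v a + 1)
      have p1 := hpre q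
      have p2 := hpre (v a + 1)
      have hlt' : (x a : ℕ) < v a := hlt
      simp only [add_zero]
      unfold ind at *
      split_ifs at * <;> omega
    | succ k ih =>
      intro hk
      have hk' : (a : ℕ) + 1 + k < n := by have := b.is_lt; omega
      set c : Fin n := ⟨a + 1 + k, hk'⟩ with hc
      have ih' := ih (by omega)
      have e1 := rk_succ x c q
      have e2 := rk_succ v c q
      have e3 := rk_succ x c (v a + 1)
      have e4 := rk_succ v c (v a + 1)
      have hcv : (c : ℕ) = a + 1 + k := rfl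
      rw [hcv] at e1 e2 e3 e4
      have hmid := hbmin c (by rw [Fin.lt_def]; omega) (by rw [Fin.lt_def]; omega)
      have hmid' : ¬ ((x a : ℕ) < x c ∧ (x c : ℕ) ≤ v a) := hmid
      rw [show (a : ℕ) + 1 + (k + 1) = a + 1 + k + 1 by ring]
      unfold ind at *
      split_ifs at * <;> omega
  have hk := hclaim (p - (a + 1)) (by omega)
  have hp : (a : ℕ) + 1 + (p - (a + 1)) = p := by omega
  rw [hp] at hk
  have := h p (v a + 1)
  omega

end Pool.Agent.H25.Zir
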