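import Pool.Agent.H25.Zir.Wlen
import Pool.Agent.H25.Zir.Loc

/-!
# Translation to the official statement in type A
-/

namespace Pool.Agent.H25.Zir

open Equiv Finset

variable {n m : ℕ}

/-- `y ↦ w0 y⁻¹` -/
def Phi (y : Perm (Fin n)) : Perm (Fin n) := Fin.revPerm * y⁻¹
/-- its inverse -/
def Psi (z : Perm (Fin n)) : Perm (Fin n) := z⁻¹ * Fin.revPerm

theorem rev_sq : (Fin.revPerm : Perm (Fin n)) * Fin.revPerm = 1 := by
  ext x; simp

theorem Psi_Phi (y : Perm (Fin n)) : Psi (Phi y) = y := by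
  unfold Psi Phi
  rw [mul_inv_rev, inv_inv, mul_assoc, inv_mul_cancel, mul_one]

theorem Phi_Psi (z : Perm (Fin n)) : Phi (Psi z) = z := by
  unfold Psi Phi
  rw [mul_inv_rev, inv_inv, ← mul_assoc, mul_inv_cancel, one_mul]

theorem Phi_inj {y z : Perm (Fin n)} (h : Phi y = Phi z) : y = z := by
  rw [← Psi_Phi y, h, Psi_Phi]

theorem rk_Phi (y : Perm (Fin n)) (p q : ℕ) :
    rk (Phi y) p q + rk y (n - q) p = ∑ c : Fin n, ind ((c : ℕ) < p) := by
  unfold rk Phi
  rw [← Equiv.sum_comp y (fun c => ind ((c : ℕ) < p ∧ (((Fin.revPerm * y⁻¹ : Perm (Fin n)) c : Fin n) : ℕ) < q)),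
    ← Equiv.sum_comp y (fun c => ind ((c : ℕ) < p)), ← Finset.sum_add_distrib]
  apply Finset.sum_congr rfl
  intro d _
  have h1 : (((Fin.revPerm * y⁻¹ : Perm (Fin n)) (y d) : Fin n) : ℕ) = n - (d + 1) := by
    rw [Perm.mul_apply]
    simp [Fin.val_rev]
  rw [h1]
  have := d.is_lt
  unfold ind
  split_ifs <;> omega

theorem le_Phi {u w : Perm (Fin n)} : Le (Phi w) (Phi u) ↔ Le u w := by
  constructor
  · intro h p q
    rcases le_or_gt p n with hp | hp
    · have h1 := rk_Phi u q (n - p)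
      have h2 := rk_Phi w q (n - p)
      have h3 := h q (n - p)
      have e : n - (n - p) = p := by omega
      rw [e] at h1 h2
      omega
    · rw [rk_ge w hp.le, rk_ge u hp.le, rk_n w, rk_n u]
  · intro h p q
    have h1 := rk_Phi u p q
    have h2 := rk_Phi w p q
    have h3 := h (n - q) p
    omega

theorem Phi_left (w s : Perm (Fin n)) : Phi (s * w) = Phi w * s⁻¹ := by
  unfold Phi
  rw [mul_inv_rev, mul_assoc]

theorem covers_iff {x y : Perm (Fin (m + 1))} : Covers (adj m) x y ↔ Cov (Phi y) (Phi x) := by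
  unfold Covers Cov
  simp only [bruhat_iff, le_Phi]
  constructor
  · rintro ⟨h1, h2, h3⟩
    refine ⟨h1, fun h => h2 (Phi_inj h).symm, ?_⟩
    intro w hw1 hw2
    rw [← Phi_Psi w] at hw1 hw2 ⊢
    rw [le_Phi] at hw1 hw2
    rcases h3 (Psi w) hw2 hw1 with h | h
    · right; rw [h]
    · left; rw [h]
  · rintro ⟨h1, h2, h3⟩
    refine ⟨h1, fun h => h2 (by rw [h]), ?_⟩
    intro z hz1 hz2
    rcases h3 (Phi z) (le_Phi.mpr hz2) (le_Phi.mpr hz1) with h | h
    · right; exact Phi_inj h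
    · left; exact Phi_inj h

theorem SM_of_special {u z : Perm (Fin (m + 1))} {M : Perm (Fin (m + 1)) → Perm (Fin (m + 1))}
    (hM : IsSpecialMatching (adj m) u z M) : SM (Phi z) (Phi u) (fun x => Phi (M (Psi x))) where
  maps := by
    intro x h1 h2
    rw [← Phi_Psi x] at h1 h2
    rw [le_Phi] at h1 h2
    have := hM.maps (Psi x) (bruhat_iff.mpr h2) (bruhat_iff.mpr h1)
    exact ⟨le_Phi.mpr (bruhat_iff.mp this.2), le_Phi.mpr (bruhat_iff.mp this.1)⟩
  invol := by
    intro x h1 h2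
    rw [← Phi_Psi x] at h1 h2
    rw [le_Phi] at h1 h2
    simp only [Psi_Phi]
    rw [hM.invol (Psi x) (bruhat_iff.mpr h2) (bruhat_iff.mpr h1), Phi_Psi]
  cov := by
    intro x h1 h2
    rw [← Phi_Psi x] at h1 h2
    rw [le_Phi] at h1 h2
    rcases hM.covers (Psi x) (bruhat_iff.mpr h2) (bruhat_iff.mpr h1) with h | h
    · right
      have := covers_iff.mp h
      rwa [Phi_Psi] at this
    · left
      have := covers_iff.mp h
      rwa [Phi_Psi] at this
  spec := by
    intro x z' h1 h2 hc hne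
    have h3 := h1.trans hc.1
    have h4 := hc.1.trans h2
    rw [← Phi_Psi x] at h1 h4
    rw [← Phi_Psi z'] at h2 h3
    rw [le_Phi] at h1 h2 h3 h4
    have hc' : Covers (adj m) (Psi z') (Psi x) := by
      rw [covers_iff, Phi_Psi, Phi_Psi]; exact hc
    have hne' : M (Psi z') ≠ Psi x := by
      intro h
      apply hne
      show Phi (M (Psi x)) = z'
      rw [← h, hM.invol (Psi z') (bruhat_iff.mpr h2) (bruhat_iff.mpr h3), Phi_Psi]
    have h5 := hM.special (Psi z') (Psi x) (bruhat_iff.mpr h2) (bruhat_iff.mpr h3)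
      (bruhat_iff.mpr h4) (bruhat_iff.mpr h1) hc' hne'
    exact ⟨le_Phi.mpr (bruhat_iff.mp h5.1), fun h => h5.2 (Phi_inj h).symm⟩

/-- the official theorem from the internal one -/
theorem final_of_main
    (main : ∀ {x0 v : Perm (Fin (m + 1))}, Rules x0 v → ∀ {x}, Le x0 x → Le x v → x ≠ v →
      ∃ i j : Fin (m + 1), (j : ℕ) = i + 1 ∧ x i < x j ∧ (¬ Le (x * swap i j) v ∨ v j < v i))
    {u w : Perm (Fin (m + 1))} (h : IsZircon (adj m) u w) (hne : u ≠ w) :
    ∃ i : Fin m, wlen (adj m) (adj m i * w) < wlen (adj m) w ∧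
      (¬ Bruhat (adj m) u (adj m i * w) ∨ wlen (adj m) u < wlen (adj m) (adj m i * u)) := by
  obtain ⟨huw, hz⟩ := h
  have H : DZ (Phi w) (Phi u) := by
    intro y h1 h2 hy
    rw [← Phi_Psi y] at h1 h2 hy ⊢
    rw [le_Phi] at h1 h2
    obtain ⟨M, hM⟩ := hz (Psi y) (bruhat_iff.mpr h2) (bruhat_iff.mpr h1) (fun h => hy (by rw [h]))
    exact ⟨_, SM_of_special hM⟩
  obtain ⟨i, j, hij, hx, hor⟩ := main (rules_of_DZ H) (Le.refl _) (le_Phi.mpr (bruhat_iff.mp huw))
    (fun h => hne (Phi_inj h).symm)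
  have hi : (i : ℕ) < m := by have := j.is_lt; omega
  let k : Fin m := ⟨i, hi⟩
  have hk1 : k.castSucc = i := by ext; simp [k]
  have hk2 : k.succ = j := by ext; simp [k, hij]
  have hadj : adj m k = swap i j := by unfold adj; rw [hk1, hk2]
  have val : ∀ (y : Perm (Fin (m + 1))) (a : Fin (m + 1)), Phi y a = Fin.rev (y⁻¹ a) := by
    intro y a
    unfold Phi
    rw [Perm.mul_apply]
    rfl
  rw [val, val, Fin.rev_lt_rev] at hx
  refine ⟨k, ?_, ?_⟩
  · rw [wlen_eq, wlen_eq, hadj]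
    have := len_adj_down hij hx
    omega
  · rw [hadj, wlen_eq, wlen_eq]
    rcases hor with h | h
    · left
      rw [bruhat_iff, ← le_Phi, Phi_left, swap_inv]
      exact h
    · right
      rw [val, val, Fin.rev_lt_rev] at h
      have := len_adj_up hij h
      omega

end Pool.Agent.H25.Zir
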