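import Pool.Agent.H25.Zir.Len

/-!
# Intervals of length two have at least two middle elements

The lifting lemmas for neighbouring positions are proved here directly from ranks (names with a
`Two.` prefix, so that they do not clash with the ones of the file Diff).
-/

namespace Pool.Agent.H25.Zir

open Equiv Finset

variable {n : ℕ}

namespace Two

/-- ranks near a pair of neighbouring positions -/
theorem rk_step (y : Perm (Fin n)) {i j : Fin n} (hij : (j : ℕ) = i + 1) (q : ℕ) :
    rk y (i + 1) q = rk y i q + ind ((y i : ℕ) < q) ∧
      rk y (i + 2) q = rk y i q + ind ((y i : ℕ) < q) + ind ((y j : ℕ) < q) := by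
  have e1 := rk_succ y i q
  have e2 := rk_succ y j q
  rw [hij] at e2
  refine ⟨e1, ?_⟩
  rw [show (i : ℕ) + 2 = i + 1 + 1 by ring, e2, e1]

theorem lift_up {x y : Perm (Fin n)} (h : Le x y) {i j : Fin n} (hij : (j : ℕ) = i + 1)
    (hx : x i < x j) (hy : y j < y i) : Le (x * swap i j) y ∧ Le x (y * swap i j) := by
  have hlt : i < j := by rw [Fin.lt_def]; omega
  have hx' : (x i : ℕ) < x j := hx
  have hy' : (y j : ℕ) < y i := hy
  constructor
  · rw [swap_le_iff h hlt hx]
    intro p q h1 h2 h3 h4
    have hp : p = (i : ℕ) + 1 := by omega
    subst hp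
    have e1 := rk_step x hij q
    have e2 := rk_step y hij q
    have e3 := h i q
    have e4 := h (i + 2) q
    unfold ind at *
    split_ifs at * <;> omega
  · intro p q
    have e0 := rk_swap (y * swap i j) hlt (by
      simpa only [Perm.mul_apply, swap_apply_left, swap_apply_right] using hy) p q
    rw [mul_assoc, swap_mul_self, mul_one] at e0
    simp only [Perm.mul_apply, swap_apply_left, swap_apply_right] at e0
    have h0 := h p q
    by_cases hp : p = (i : ℕ) + 1
    · subst hp
      have e1 := rk_step x hij q
      have e2 := rk_step y hij q
      have e3 := h i q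
      have e4 := h (i + 2) q
      unfold ind at *
      split_ifs at * <;> omega
    · unfold ind at *
      split_ifs at * <;> omega

theorem lift_both {x y : Perm (Fin n)} (h : Le x y) {i j : Fin n} (hij : (j : ℕ) = i + 1)
    (hx : x i < x j) (hy : y i < y j) : Le (x * swap i j) (y * swap i j) := by
  have hlt : i < j := by rw [Fin.lt_def]; omega
  have hx' : (x i : ℕ) < x j := hx
  have hy' : (y i : ℕ) < y j := hy
  intro p q
  have e0 := rk_swap x hlt hx p q
  have e0' := rk_swap y hlt hy p q
  have h0 := h p q
  by_cases hp : p = (i : ℕ) + 1
  · subst hp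
    have e1 := rk_step x hij q
    have e2 := rk_step y hij q
    have e3 := h i q
    have e4 := h (i + 2) q
    unfold ind at *
    split_ifs at * <;> omega
  · unfold ind at *
    split_ifs at * <;> omega

theorem lift_both' {x y : Perm (Fin n)} (h : Le x y) {i j : Fin n} (hij : (j : ℕ) = i + 1)
    (hx : x j < x i) (hy : y j < y i) : Le (x * swap i j) (y * swap i j) := by
  have hlt : i < j := by rw [Fin.lt_def]; omega
  have hx' : (x j : ℕ) < x i := hx
  have hy' : (y j : ℕ) < y i := hy
  intro p q
  have e0 := rk_swap (x * swap i j) hlt (by
    simpa only [Perm.mul_apply, swap_apply_left, swap_apply_right] using hx) p q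
  have e0' := rk_swap (y * swap i j) hlt (by
    simpa only [Perm.mul_apply, swap_apply_left, swap_apply_right] using hy) p q
  rw [mul_assoc, swap_mul_self, mul_one] at e0 e0'
  simp only [Perm.mul_apply, swap_apply_left, swap_apply_right] at e0 e0'
  have h0 := h p q
  by_cases hp : p = (i : ℕ) + 1
  · subst hp
    have e1 := rk_step x hij q
    have e2 := rk_step y hij q
    have e3 := h i q
    have e4 := h (i + 2) q
    unfold ind at *
    split_ifs at * <;> omega
  · unfold ind at *
    split_ifs at * <;> omega

/-- a permutation without adjacent descents has no inversions -/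
theorem exists_descent {q : Perm (Fin n)} (hq : 0 < len q) :
    ∃ i j : Fin n, (j : ℕ) = i + 1 ∧ q j < q i := by
  by_contra hc
  push Not at hc
  have hmono : ∀ k : ℕ, ∀ i j : Fin n, (j : ℕ) = i + 1 + k → q i < q j := by
    intro k
    induction k with
    | zero =>
      intro i j hij
      have h1 := hc i j (by omega)
      rcases lt_or_eq_of_le h1 with h2 | h2
      · exact h2
      · have := q.injective h2
        rw [this] at hij
        omega
    | succ k ih =>
      intro i j hij
      have hj : (i : ℕ) + 1 + k < n := by have := j.is_lt; omega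
      have h1 := ih i ⟨i + 1 + k, hj⟩ rfl
      have h2 := hc ⟨i + 1 + k, hj⟩ j (by simp only; omega)
      exact h1.trans_le h2
  unfold len at hq
  rw [Finset.card_pos] at hq
  obtain ⟨⟨a, b⟩, hab⟩ := hq
  simp only [mem_filter, mem_univ, true_and] at hab
  have h1 : (a : ℕ) < b := hab.1
  have h2 := hmono (b - (a + 1)) a b (by omega)
  exact absurd hab.2 h2.not_gt

end Two

theorem two_middles {B q : Perm (Fin n)} (h : Le B q) (hl : len q = len B + 2) :
    ∃ a b, a ≠ b ∧ Le B a ∧ Le a q ∧ len a = len B + 1 ∧ Le B b ∧ Le b q ∧ len b = len B + 1 := by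
  have key : ∀ k : ℕ, ∀ B q : Perm (Fin n), len q ≤ k → Le B q → len q = len B + 2 →
      ∃ a b, a ≠ b ∧ Le B a ∧ Le a q ∧ len a = len B + 1 ∧ Le B b ∧ Le b q ∧
        len b = len B + 1 := by
    intro k
    induction k with
    | zero =>
      intro B q hk h hl
      omega
    | succ k ih =>
      intro B q hk h hl
      obtain ⟨i, j, hij, hq⟩ := Two.exists_descent (q := q) (by omega)
      have hlt : i < j := by rw [Fin.lt_def]; omega
      have hqs : Le (q * swap i j) q := by
        have h1 := le_swap (q * swap i j) hlt (by
          simpa only [Perm.mul_apply, swap_apply_left, swap_apply_right] using hq)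
        rwa [mul_assoc, swap_mul_self, mul_one] at h1
      have hlqs := len_swap_adj' hij hq
      have hneB : B i ≠ B j := fun hh => hlt.ne (B.injective hh)
      rcases lt_or_gt_of_ne hneB with hB | hB
      · obtain ⟨h1, h2⟩ := Two.lift_up h hij hB hq
        have hlB := len_swap_adj hij hB
        refine ⟨B * swap i j, q * swap i j, ?_, le_swap B hlt hB, h1, hlB, h2, hqs, by omega⟩
        intro he
        have : B = q := mul_right_cancel he
        rw [this] at hl
        omega
      · have hlB := len_swap_adj' hij hB
        have hle := Two.lift_both' h hij hB hq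
        obtain ⟨a, b, hab, ha1, ha2, ha3, hb1, hb2, hb3⟩ := ih (B * swap i j) (q * swap i j)
          (by omega) hle (by omega)
        have hBs : (B * swap i j) i < (B * swap i j) j := by
          simpa only [Perm.mul_apply, swap_apply_left, swap_apply_right] using hB
        have hqsi : (q * swap i j) i < (q * swap i j) j := by
          simpa only [Perm.mul_apply, swap_apply_left, swap_apply_right] using hq
        have hcase : ∀ m : Perm (Fin n), Le (B * swap i j) m → Le m (q * swap i j) →
            len m = len (B * swap i j) + 1 →
            (m i < m j ∧ Le B (m * swap i j) ∧ Le (m * swap i j) q ∧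
              len (m * swap i j) = len B + 1) ∨ m = B := by
          intro m h1 h2 h3
          have hne : m i ≠ m j := fun hh => hlt.ne (m.injective hh)
          rcases lt_or_gt_of_ne hne with hm | hm
          · left
            have h4 := Two.lift_both h1 hij hBs hm
            have h5 := Two.lift_both h2 hij hm hqsi
            rw [mul_assoc, swap_mul_self, mul_one] at h4 h5
            exact ⟨hm, h4, h5, by rw [len_swap_adj hij hm]; omega⟩
          · right
            have h4 := (Two.lift_up h1 hij hBs hm).1
            rw [mul_assoc, swap_mul_self, mul_one] at h4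
            exact (eq_of_le_of_len h4 (by omega)).symm
        rcases hcase a ha1 ha2 ha3 with ⟨ha4, ha5, ha6, ha7⟩ | ha4
        · rcases hcase b hb1 hb2 hb3 with ⟨hb4, hb5, hb6, hb7⟩ | hb4
          · exact ⟨a * swap i j, b * swap i j, fun he => hab (mul_right_cancel he),
              ha5, ha6, ha7, hb5, hb6, hb7⟩
          · refine ⟨a * swap i j, q * swap i j, ?_, ha5, ha6, ha7, hb4 ▸ hb2, hqs, by omega⟩
            intro he
            have : a = q := mul_right_cancel he
            rw [this] at ha3
            omega
        · rcases hcase b hb1 hb2 hb3 with ⟨hb4, hb5, hb6, hb7⟩ | hb4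
          · refine ⟨q * swap i j, b * swap i j, ?_, ha4 ▸ ha2, hqs, by omega, hb5, hb6, hb7⟩
            intro he
            have : q = b := mul_right_cancel he
            rw [← this] at hb3
            omega
          · exact absurd (ha4.trans hb4.symm) hab
  exact key _ B q le_rfl h hl

end Pool.Agent.H25.Zir
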