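import Pool.Agent.H25.Zir.Trans
import Pool.Agent.H25.Zir.Main

/-!
Delanoy's descent conjecture for zircons in all types `A_m`.

The definitions (word length, reflections, Bruhat order, special matchings, zircons) are in
`Pool/Agent/H25/Zir/Off.lean`; the proof is in the other files of `Pool/Agent/H25/Zir`.
-/

open Pool.Agent.H25.Zir

namespace Pool.Agent.Results.MP_92a1a0_co.TypeA

/-- **Main theorem.** Let `W` be the symmetric group on `m + 1` letters with the adjacent
transpositions as simple reflections (type `A_m`). If `[u, w]` is a zircon and `u ≠ w`, then there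
is a simple reflection `s` with `s w < w` such that `s w` is not above `u` or `s u > u`. -/
theorem result (m : ℕ) (u w : Equiv.Perm (Fin (m + 1))) (h : IsZircon (adj m) u w)
    (hne : u ≠ w) :
    ∃ i : Fin m, wlen (adj m) (adj m i * w) < wlen (adj m) w ∧
      (¬ Bruhat (adj m) u (adj m i * w) ∨
        wlen (adj m) u < wlen (adj m) (adj m i * u)) :=
  final_of_main (fun R _ h0 hv hn => main R h0 hv hn) h hne

end Pool.Agent.Results.MP_92a1a0_co.TypeA
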