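import Pool.Agent.H25.Zir.Len
import Pool.Agent.H25.Zir.Diff

/-!
# The witness theorem
-/

namespace Pool.Agent.H25.Zir

open Equiv Finset

variable {n : ℕ}

/-- products of two transpositions of three positions -/
theorem sw3 {i j d : Fin n} (h1 : i ≠ j) (h2 : i ≠ d) (h3 : j ≠ d) :
    swap i j * swap j d = swap i d * swap i j ∧ swap i j * swap i d = swap j d * swap i j := by
  constructor
  · ext c
    simp only [Perm.mul_apply, swap_apply_def]
    split_ifs <;> simp_all
  · ext c
    simp only [Perm.mul_apply, swap_apply_def]
    split_ifs <;> simp_all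

/-- disjoint transpositions commute -/
theorem sw_comm {a i j b : Fin n} (h1 : a ≠ j) (h2 : a ≠ b) (h3 : i ≠ j) (h4 : i ≠ b) :
    swap a i * swap j b = swap j b * swap a i := by
  ext k
  simp only [Perm.mul_apply]
  by_cases ka : k = a
  · subst ka
    rw [swap_apply_of_ne_of_ne h1 h2, swap_apply_left, swap_apply_of_ne_of_ne h3 h4]
  by_cases ki : k = i
  · subst ki
    rw [swap_apply_of_ne_of_ne h3 h4, swap_apply_right, swap_apply_of_ne_of_ne h1 h2]
  by_cases kj : k = j
  · subst kj
    rw [swap_apply_left, swap_apply_of_ne_of_ne ka ki, swap_apply_left,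
      swap_apply_of_ne_of_ne h2.symm h4.symm]
  by_cases kb : k = b
  · subst kb
    rw [swap_apply_right, swap_apply_of_ne_of_ne ka ki, swap_apply_right,
      swap_apply_of_ne_of_ne h1.symm h3.symm]
  rw [swap_apply_of_ne_of_ne kj kb, swap_apply_of_ne_of_ne ka ki, swap_apply_of_ne_of_ne kj kb]

theorem sw_E1 {a i j b : Fin n} (h0 : a ≠ i) (h1 : a ≠ j) (h2 : a ≠ b) (h3 : i ≠ j) (h4 : i ≠ b) :
    swap a i * swap j b * swap i j * swap a j = swap j b * swap i j := by
  have e := (sw3 (i := i) (j := j) (d := a) h3 h0.symm h1.symm).1
  rw [swap_comm j a, swap_comm i a] at e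
  rw [mul_assoc, e, sw_comm h1 h2 h3 h4, mul_assoc, ← mul_assoc (swap a i), swap_mul_self, one_mul]

theorem sw_E2 {i j b : Fin n} (h3 : i ≠ j) (h4 : i ≠ b) (h5 : j ≠ b) :
    swap j b * swap i j * swap i b = swap i j := by
  have e := (sw3 (i := i) (j := j) (d := b) h3 h4 h5).2
  rw [mul_assoc, e, ← mul_assoc, swap_mul_self, one_mul]

theorem adj_lt {i j : Fin n} (hij : (j : ℕ) = i + 1) : i < j := by
  rw [Fin.lt_def]; omega

/-- the claim on down-moves of a minimal element -/
theorem claimT {x0 v x z : Perm (Fin n)} (R : Rules x0 v) (h0 : Le x0 x)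
    {i j : Fin n} (hij : (j : ℕ) = i + 1) (hx : x i < x j)
    (hzv : Le z v) (hzij : z i < z j) (hns : ¬ Le (z * swap i j) v)
    (hmin : ∀ w, Le x w → Le w v → len w < len z → w i < w j → Le (w * swap i j) v)
    {c d : Fin n} (hcd : c < d) (hz : z d < z c) (hxw : Le x (z * swap c d)) :
    (c = j ∧ z i < z d) ∨ (d = i ∧ z c < z j) := by
  have hilj := adj_lt hij
  have hinej : i ≠ j := hilj.ne
  -- down-moves
  have hdown : ∀ {c d : Fin n}, c < d → z d < z c → Le (z * swap c d) v ∧
      len (z * swap c d) < len z := by
    intro c d hcd hz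
    have e : z * swap c d * swap c d = z := by rw [mul_assoc, swap_mul_self, mul_one]
    have h1 : (z * swap c d) c < (z * swap c d) d := by
      simp only [Perm.mul_apply, swap_apply_left, swap_apply_right]; exact hz
    have h2 := le_swap (z * swap c d) hcd h1
    have h3 := len_swap_lt hcd h1
    rw [e] at h2 h3
    exact ⟨h2.trans hzv, h3⟩
  -- T3
  have T3 : ∀ {d : Fin n}, j < d → z d < z i → Le x (z * swap i d) → False := by
    intro d hjd hz hxw
    have hid : i < d := hilj.trans hjd
    obtain ⟨g1, g2⟩ := hdown hid hz
    have e1 : (z * swap i d) i = z d := by simp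
    have e2 : (z * swap i d) d = z i := by simp
    have e3 : (z * swap i d) j = z j := by
      rw [Perm.mul_apply, swap_apply_of_ne_of_ne hinej.symm hjd.ne]
    have g3 : Le (z * swap i d * swap i j) v := by
      apply hmin _ hxw g1 g2
      rw [e1, e3]; exact hz.trans hzij
    have g4 : Le (z * swap i d * swap i d) v := by
      rw [mul_assoc, swap_mul_self, mul_one]; exact hzv
    have g5 := R.c2 (z * swap i d) (h0.trans hxw) i j d hilj hjd (by rw [e1, e2]; exact hz)
      (by rw [e2, e3]; exact hzij) g3 g4
    apply hns
    have e : z * swap i d * swap i j * swap j d = z * swap i j := by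
      rw [mul_assoc, (sw3 hinej hid.ne hjd.ne).1, ← mul_assoc, mul_assoc z, swap_mul_self, mul_one]
    rw [e] at g5
    exact g5
  -- T4
  have T4 : ∀ {c : Fin n}, c < i → z j < z c → Le x (z * swap c j) → False := by
    intro c hci hz hxw
    have hcj : c < j := hci.trans hilj
    obtain ⟨g1, g2⟩ := hdown hcj hz
    have e1 : (z * swap c j) c = z j := by simp
    have e2 : (z * swap c j) j = z c := by simp
    have e3 : (z * swap c j) i = z i := by
      rw [Perm.mul_apply, swap_apply_of_ne_of_ne hci.ne' hinej]
    have g3 : Le (z * swap c j * swap i j) v := by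
      apply hmin _ hxw g1 g2
      rw [e2, e3]; exact hzij.trans hz
    have g4 : Le (z * swap c j * swap c j) v := by
      rw [mul_assoc, swap_mul_self, mul_one]; exact hzv
    have g5 := R.c2' (z * swap c j) (h0.trans hxw) c i j hci hilj (by rw [e1, e3]; exact hzij)
      (by rw [e1, e2]; exact hz) g3 g4
    apply hns
    have e : z * swap c j * swap i j * swap c i = z * swap i j := by
      have := (sw3 (i := i) (j := j) (d := c) hinej hci.ne' hcj.ne').2
      rw [swap_comm i c, swap_comm j c] at this
      rw [mul_assoc, this, ← mul_assoc, mul_assoc z, swap_mul_self, mul_one]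
    rw [e] at g5
    exact g5
  by_cases hci : c = i
  · exfalso
    subst hci
    have hdj : d ≠ j := by rintro rfl; exact lt_asymm hz hzij
    have hjd : j < d := by
      rw [Fin.lt_def] at hcd ⊢
      have : (d : ℕ) ≠ j := fun h => hdj (Fin.ext h)
      omega
    exact T3 hjd hz hxw
  by_cases hcj : c = j
  · subst hcj
    left
    refine ⟨rfl, ?_⟩
    by_contra hcon
    have hne : z d ≠ z i := fun h => by
      have := z.injective h
      rw [this] at hcd
      exact lt_asymm hcd hilj
    have hzdi : z d < z i := lt_of_le_of_ne (not_lt.mp hcon) hne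
    have hid : i < d := hilj.trans hcd
    -- w0 = z (j d)
    have e1 : (z * swap c d) i = z i := by
      rw [Perm.mul_apply, swap_apply_of_ne_of_ne hinej hid.ne]
    have e2 : (z * swap c d) c = z d := by simp
    have g1 := (lift_up hxw hij hx (by rw [e1, e2]; exact hzdi)).2
    have : Le (z * swap c d * swap i c) (z * swap c d * swap i c * swap c d) := by
      apply le_swap _ hcd
      simp only [Perm.mul_apply, swap_apply_right]
      rw [swap_apply_of_ne_of_ne (a := i) (b := c) (x := d) hid.ne' hcd.ne',
        swap_apply_right, swap_apply_of_ne_of_ne hinej hid.ne]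
      exact hzij
    have e : z * swap c d * swap i c * swap c d = z * swap i d := by
      have := (sw3 (i := i) (j := c) (d := d) hinej hid.ne hcd.ne).1
      rw [mul_assoc, this, ← mul_assoc, mul_assoc z]
      have h2 := (sw3 (i := i) (j := c) (d := d) hinej hid.ne hcd.ne).2
      have h3 : swap c d * swap i d = swap i d * swap i c := by
        have := (sw3 (i := d) (j := c) (d := i) hcd.ne' hid.ne' hinej.symm).2
        rw [swap_comm d c, swap_comm d i, swap_comm c i] at this
        rw [this]
        have h4 := (sw3 (i := i) (j := c) (d := d) hinej hid.ne hcd.ne)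
        rw [← h4.1]
      rw [h3, ← mul_assoc, mul_assoc (z * swap i d), swap_mul_self, mul_one]
    rw [e] at this
    exact T3 hcd hzdi (g1.trans this)
  by_cases hdi : d = i
  · subst hdi
    right
    refine ⟨rfl, ?_⟩
    by_contra hcon
    have hcj' : c < j := hcd.trans hilj
    have hne : z j ≠ z c := fun h => hcj'.ne (z.injective h).symm
    have hzjc : z j < z c := lt_of_le_of_ne (not_lt.mp hcon) hne
    have e1 : (z * swap c d) j = z j := by
      rw [Perm.mul_apply, swap_apply_of_ne_of_ne hcj'.ne' hinej.symm]
    have e2 : (z * swap c d) d = z c := by simp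
    have g1 := (lift_up hxw hij hx (by rw [e1, e2]; exact hzjc)).2
    have e3 : (z * swap c d * swap d j) c = z d := by
      rw [Perm.mul_apply, swap_apply_of_ne_of_ne hcd.ne hcj'.ne, Perm.mul_apply, swap_apply_left]
    have e4 : (z * swap c d * swap d j) d = z j := by
      rw [Perm.mul_apply, swap_apply_left, e1]
    have : Le (z * swap c d * swap d j) (z * swap c d * swap d j * swap c d) := by
      apply le_swap _ hcd
      rw [e3, e4]; exact hzij
    have e : z * swap c d * swap d j * swap c d = z * swap c j := by
      rw [mul_assoc, mul_assoc, ]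
      congr 1
      ext k
      simp only [Perm.mul_apply, swap_apply_def]
      split_ifs <;> simp_all
    rw [e] at this
    exact T4 hcd hzjc (g1.trans this)
  by_cases hdj : d = j
  · exfalso
    subst hdj
    have hc : c < i := by
      rw [Fin.lt_def] at hcd ⊢
      have : (c : ℕ) ≠ i := fun h => hci (Fin.ext h)
      omega
    exact T4 hc hz hxw
  · exfalso
    obtain ⟨g1, g2⟩ := hdown hcd hz
    have e1 : (z * swap c d) i = z i := by
      rw [Perm.mul_apply, swap_apply_of_ne_of_ne (Ne.symm hci) (Ne.symm hdi)]
    have e2 : (z * swap c d) j = z j := by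
      rw [Perm.mul_apply, swap_apply_of_ne_of_ne (Ne.symm hcj) (Ne.symm hdj)]
    have g3 : Le (z * swap c d * swap i j) v := by
      apply hmin _ hxw g1 g2
      rw [e1, e2]; exact hzij
    have g4 : Le (z * swap c d * swap c d) v := by
      rw [mul_assoc, swap_mul_self, mul_one]; exact hzv
    have g5 := R.c0 (z * swap c d) (h0.trans hxw) c d i j hcd hilj hci hcj hdi hdj
      (by simp only [Perm.mul_apply, swap_apply_left, swap_apply_right]; exact hz)
      (by rw [e1, e2]; exact hzij) g4 g3
    rw [mul_assoc z, swap_mul_self, mul_one] at g5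
    exact hns g5


/-- The witness theorem. -/
theorem witness {x0 v : Perm (Fin n)} (R : Rules x0 v) {x : Perm (Fin n)} (h0 : Le x0 x)
    (hv : Le x v) {i j : Fin n} (hij : (j : ℕ) = i + 1) (hx : x i < x j)
    (hxs : Le (x * swap i j) v) (hvv : v i < v j) :
    (∃ b : Fin n, ∃ t : ℕ, j < b ∧ x j < x b ∧ Le (x * swap j b) v ∧ (x j : ℕ) < t ∧ t ≤ x b ∧
      rk x j t = rk v j t) ∨
    (∃ a : Fin n, ∃ t : ℕ, a < i ∧ x a < x i ∧ Le (x * swap a i) v ∧ (x a : ℕ) < t ∧ t ≤ x i ∧
      rk x j t = rk v j t) := by
  classical
  have hilj := adj_lt hij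
  have hinej : i ≠ j := hilj.ne
  -- the set B and its minimal element
  obtain ⟨z, ⟨hxz, hzv, hzij, hns⟩, hminB⟩ : ∃ z, (Le x z ∧ Le z v ∧ z i < z j ∧
      ¬ Le (z * swap i j) v) ∧ ∀ w, (Le x w ∧ Le w v ∧ w i < w j ∧ ¬ Le (w * swap i j) v) →
      len z ≤ len w := by
    let S : Finset (Perm (Fin n)) := univ.filter (fun w => Le x w ∧ Le w v ∧ w i < w j ∧
      ¬ Le (w * swap i j) v)
    have hS : S.Nonempty := by
      refine ⟨v, ?_⟩
      simp only [S, mem_filter, mem_univ, true_and]
      refine ⟨hv, Le.refl v, hvv, ?_⟩
      intro hh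
      have h1 := len_swap_lt hilj hvv
      have h2 := len_le hh
      omega
    obtain ⟨z, hz, hz2⟩ := S.exists_min_image len hS
    refine ⟨z, ?_, ?_⟩
    · simp only [S, mem_filter, mem_univ, true_and] at hz
      exact hz
    · intro w hw
      exact hz2 w (by simp only [S, mem_filter, mem_univ, true_and]; exact hw)
  have hmin : ∀ w, Le x w → Le w v → len w < len z → w i < w j → Le (w * swap i j) v := by
    intro w h1 h2 h3 h4
    by_contra hc
    have := hminB w ⟨h1, h2, h4, hc⟩
    omega
  have hxne : x ≠ z := by rintro rfl; exact hns hxs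
  have hdown : ∀ {c d : Fin n}, c < d → z d < z c → Le (z * swap c d) v ∧
      len (z * swap c d) < len z := by
    intro c d hcd hz
    have e : z * swap c d * swap c d = z := by rw [mul_assoc, swap_mul_self, mul_one]
    have h1 : (z * swap c d) c < (z * swap c d) d := by
      simp only [Perm.mul_apply, swap_apply_left, swap_apply_right]; exact hz
    have h2 := le_swap (z * swap c d) hcd h1
    have h3 := len_swap_lt hcd h1
    rw [e] at h2 h3
    exact ⟨h2.trans hzv, h3⟩
  obtain ⟨p, d1, hpd, hz1, hxp, hpre, hno1, hx1⟩ := exists_down_first hxz hxne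
  obtain ⟨c0, b, hcb, hz2, hxb, hpost, hno2, hx2⟩ := exists_down_last hxz hxne
  have C1 := claimT R h0 hij hx hzv hzij hns hmin hpd hz1 hx1
  have C2 := claimT R h0 hij hx hzv hzij hns hmin hcb hz2 hx2
  -- the zero of z
  obtain ⟨t, ht1, ht2, htz⟩ : ∃ t : ℕ, (z i : ℕ) < t ∧ t ≤ z j ∧ rk z j t = rk v j t := by
    rw [swap_le_iff hzv hilj hzij] at hns
    push Not at hns
    obtain ⟨P, Q, a1, a2, a3, a4, a5⟩ := hns
    have hP : P = j := by omega
    subst hP
    exact ⟨Q, a3, a4, le_antisymm a5 (hzv _ _)⟩
  have hxs' : ∀ q : ℕ, (x i : ℕ) < q → q ≤ x j → rk v j q < rk x j q := by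
    intro q h1 h2
    exact (swap_le_iff hv hilj hx).1 hxs j q (by omega) le_rfl h1 h2
  have hpb : ¬ b < p := fun h => by
    have := hpost p h
    rw [this] at hxp
    exact absurd hz1 (not_lt.mpr hxp)
  rcases C1 with ⟨hpj, hzid⟩ | ⟨hd1, hzpj⟩
  · -- CASE I
    left
    subst hpj
    rcases C2 with ⟨hc0, hzib⟩ | ⟨hbi, -⟩
    swap
    · exfalso
      apply hpb
      rw [hbi]; exact hilj
    subst hc0
    have hib : i < b := hilj.trans hcb
    -- x b = z j
    have hxbz : x b = z c0 := by
      obtain ⟨e, he⟩ : ∃ e, z e = x b := ⟨z.symm (x b), by simp⟩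
      rcases lt_trichotomy e c0 with h | h | h
      · exfalso
        have h1 := hpre e h
        rw [he] at h1
        have := x.injective h1
        rw [this] at h
        exact lt_asymm h hcb
      · rw [← he, h]
      · rcases lt_trichotomy e b with h' | h' | h'
        · exfalso
          apply hno2 e h h'
          rw [he]
          exact ⟨hz2.trans_le hxb, le_rfl⟩
        · exfalso
          rw [h'] at he
          rw [he] at hz2
          exact absurd hz2 (not_lt.mpr hxb)
        · exfalso
          have h1 := hpost e h'
          rw [he] at h1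
          have := x.injective h1
          rw [this] at h'
          exact lt_irrefl _ h'
    have hxjb : x c0 < x b := by
      rw [hxbz]; exact hxp.trans_lt hz1
    obtain ⟨g1, g2⟩ := hdown hcb hz2
    have e1 : (z * swap c0 b) i = z i := by
      rw [Perm.mul_apply, swap_apply_of_ne_of_ne hinej hib.ne]
    have e2 : (z * swap c0 b) c0 = z b := by simp
    have e3 : (z * swap c0 b) b = z c0 := by simp
    have g3 : Le (z * swap c0 b * swap i c0) v := by
      apply hmin _ hx2 g1 g2
      rw [e1, e2]; exact hzib
    have g4 : Le (z * swap c0 b * swap c0 b) v := by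
      rw [mul_assoc, swap_mul_self, mul_one]; exact hzv
    have g5 := R.c1 (z * swap c0 b) (h0.trans hx2) i c0 b hilj hcb (by rw [e1, e2]; exact hzib)
      (by rw [e2, e3]; exact hz2) g3 g4
    have g6 : Le (z * swap c0 b * swap i c0 * swap c0 b) v := by
      rcases g5 with g5 | g5
      · exact g5
      · exfalso
        apply hns
        have := (sw3 (i := i) (j := c0) (d := b) hinej hib.ne hcb.ne).2
        rw [mul_assoc, this, ← mul_assoc, mul_assoc z, swap_mul_self, mul_one] at g5
        exact g5
    have e4 : (z * swap c0 b * swap i c0) c0 = z i := by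
      rw [Perm.mul_apply, swap_apply_right, e1]
    have e5 : (z * swap c0 b * swap i c0) b = z c0 := by
      rw [Perm.mul_apply, swap_apply_of_ne_of_ne hib.ne' hcb.ne', e3]
    have hxi : x i = z i := hpre i hilj
    have g7 : Le (x * swap c0 b) (z * swap c0 b * swap i c0 * swap c0 b) := by
      intro P Q
      have r1 := rk_swap x hcb hxjb P Q
      have r2 := rk_swap (z * swap c0 b) hilj (by rw [e1, e2]; exact hzib) P Q
      have r3 := rk_swap (z * swap c0 b * swap i c0) hcb (by rw [e4, e5]; exact hzij) P Q
      have r4 := hx2 P Q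
      rw [e4, e5] at r3
      rw [hxbz] at r1
      have r5 : (x i : ℕ) < x c0 := hx
      rw [hxi] at r5
      unfold ind at *
      split_ifs at * <;> omega
    have htx : rk x c0 t = rk z c0 t := rk_congr (fun c hc => hpre c (by rw [Fin.lt_def]; exact hc)) t
    have ht3 : (x c0 : ℕ) < t := by
      by_contra hcon
      have := hxs' t (by rw [hxi]; exact ht1) (by omega)
      omega
    exact ⟨b, t, hcb, hxjb, g7.trans g6, ht3, by rw [hxbz]; exact ht2, by rw [htx, htz]⟩
  · -- d1 = i
    subst hd1
    rcases C2 with ⟨hc0, hzib⟩ | ⟨hbi, hzc⟩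
    · -- CASE III
      exfalso
      subst hc0
      have hib : d1 < b := hilj.trans hcb
      obtain ⟨g1, g2⟩ := hdown hpd hz1
      obtain ⟨k1, k2⟩ := hdown hcb hz2
      have hpc : p < c0 := hpd.trans hilj
      have hpb' : p < b := hpd.trans hib
      have e1 : (z * swap p d1) d1 = z p := by simp
      have e2 : (z * swap p d1) c0 = z c0 := by
        rw [Perm.mul_apply, swap_apply_of_ne_of_ne hpc.ne' hinej.symm]
      have e2' : (z * swap p d1) b = z b := by
        rw [Perm.mul_apply, swap_apply_of_ne_of_ne hpb'.ne' hib.ne']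
      have f1 : (z * swap c0 b) d1 = z d1 := by
        rw [Perm.mul_apply, swap_apply_of_ne_of_ne hinej hib.ne]
      have f2 : (z * swap c0 b) c0 = z b := by simp
      have m1 : Le (z * swap p d1 * swap d1 c0) v := by
        apply hmin _ hx1 g1 g2
        rw [e1, e2]; exact hzpj
      have m2 : Le (z * swap c0 b * swap d1 c0) v := by
        apply hmin _ hx2 k1 k2
        rw [f1, f2]; exact hzib
      -- z b < z p
      have hzbp : z b < z p := by
        have s1 := (swap_le_iff g1 hilj (by rw [e1, e2]; exact hzpj)).1 m1 c0 t (by omega) le_rfl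
        have s2 := (swap_le_iff k1 hilj (by rw [f1, f2]; exact hzib)).1 m2 c0 t (by omega) le_rfl
        have s3 : rk (z * swap p d1) c0 t = rk z c0 t := by
          have := rk_swap_gen z hpd.ne c0 t
          have h1 : (p : ℕ) < d1 := hpd
          unfold ind at this
          split_ifs at this <;> omega
        have s4 : rk (z * swap c0 b) c0 t = rk z c0 t := by
          have := rk_swap_gen z hcb.ne c0 t
          have h1 : (c0 : ℕ) < b := hcb
          unfold ind at this
          split_ifs at this <;> omega
        rw [s3, e1, e2] at s1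
        rw [s4, f1, f2] at s2
        rw [Fin.lt_def]
        by_contra hcon
        have h3 : ¬ ((z p : ℕ) < t) := fun h => by
          have := s1 h ht2; omega
        have h4 : ¬ (t ≤ (z b : ℕ)) := fun h => by
          have := s2 ht1 h; omega
        omega
      -- w = 1324
      have hw : Le x (z * swap p d1 * swap c0 b) := by
        intro P Q
        have r1 := rk_swap_gen z hpd.ne P Q
        have r2 := rk_swap_gen z hcb.ne P Q
        have r3 := rk_swap_gen (z * swap p d1) hcb.ne P Q
        rw [e2, e2'] at r3
        have r4 := hx1 P Q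
        have r5 := hx2 P Q
        have q1 : (p : ℕ) < d1 := hpd
        have q2 : (c0 : ℕ) < b := hcb
        have q3 : (z d1 : ℕ) < z p := hz1
        have q4 : (z b : ℕ) < z c0 := hz2
        unfold ind at *
        split_ifs at * <;> omega
      have w1 : (z * swap p d1 * swap c0 b) d1 = z p := by
        rw [Perm.mul_apply, swap_apply_of_ne_of_ne hinej hib.ne, e1]
      have w2 : (z * swap p d1 * swap c0 b) c0 = z b := by
        rw [Perm.mul_apply, swap_apply_left, e2']
      have w3 : (z * swap p d1 * swap c0 b) p = z d1 := by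
        rw [Perm.mul_apply, swap_apply_of_ne_of_ne hpc.ne hpb'.ne, Perm.mul_apply, swap_apply_left]
      have w4 : (z * swap p d1 * swap c0 b) b = z c0 := by
        rw [Perm.mul_apply, swap_apply_right, e2]
      set w := z * swap p d1 * swap c0 b with hwdef
      have hu := (lift_up hw hij hx (by rw [w1, w2]; exact hzbp)).2
      have u1 : (w * swap d1 c0) d1 = z b := by rw [Perm.mul_apply, swap_apply_left, w2]
      have u2 : (w * swap d1 c0) c0 = z p := by rw [Perm.mul_apply, swap_apply_right, w1]
      have u3 : (w * swap d1 c0) p = z d1 := by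
        rw [Perm.mul_apply, swap_apply_of_ne_of_ne hpd.ne hpc.ne, w3]
      have u4 : (w * swap d1 c0) b = z c0 := by
        rw [Perm.mul_apply, swap_apply_of_ne_of_ne hib.ne' hcb.ne', w4]
      have q0 := R.c0 (w * swap d1 c0) (h0.trans hu) p c0 d1 b hpc hib hpd.ne hpb'.ne
        hinej.symm hcb.ne (by rw [u3, u2]; exact hz1) (by rw [u1, u4]; exact hz2)
      have n1 := hpd.ne; have n2 := hpc.ne; have n3 := hpb'.ne; have n4 := hib.ne
      have n5 := hcb.ne
      have E1 : w * swap d1 c0 * swap p c0 = z * swap c0 b * swap d1 c0 := by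
        have := sw_E1 n1 n2 n3 hinej n4
        rw [hwdef]
        simp only [mul_assoc] at this ⊢
        rw [this]
      have E2 : w * swap d1 c0 * swap d1 b = z * swap p d1 * swap d1 c0 := by
        have := sw_E2 hinej n4 n5
        rw [hwdef]
        simp only [mul_assoc] at this ⊢
        rw [this]
      have E3 : w * swap d1 c0 * swap p c0 * swap d1 b = z * swap d1 c0 := by
        rw [E1]
        have := sw_E2 hinej n4 n5
        simp only [mul_assoc] at this ⊢
        rw [this]
      rw [E3, E1, E2] at q0
      exact hns (q0 m2 m1)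
    · -- CASE II
      right
      subst hbi
      have hpj : p < j := hpd.trans hilj
      have hxpz : x p = z b := by
        obtain ⟨e, he⟩ : ∃ e, z e = x p := ⟨z.symm (x p), by simp⟩
        rcases lt_trichotomy e b with h | h | h
        · rcases lt_trichotomy e p with h' | h' | h'
          · exfalso
            have h1 := hpre e h'
            rw [he] at h1
            have := x.injective h1
            rw [this] at h'
            exact lt_irrefl _ h'
          · exfalso
            rw [h'] at he
            rw [he] at hz1
            exact absurd hz1 (not_lt.mpr hxp)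
          · exfalso
            apply hno1 e h' h
            rw [he]
            exact ⟨le_rfl, hxp.trans_lt hz1⟩
        · rw [← he, h]
        · exfalso
          have h1 := hpost e h
          rw [he] at h1
          have := x.injective h1
          rw [this] at h
          exact lt_asymm h hpd
      have hxpi : x p < x b := by
        rw [hxpz]; exact hz2.trans_le hxb
      obtain ⟨g1, g2⟩ := hdown hpd hz1
      have e1 : (z * swap p b) p = z b := by simp
      have e2 : (z * swap p b) b = z p := by simp
      have e3 : (z * swap p b) j = z j := by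
        rw [Perm.mul_apply, swap_apply_of_ne_of_ne hpj.ne' hinej.symm]
      have g3 : Le (z * swap p b * swap b j) v := by
        apply hmin _ hx1 g1 g2
        rw [e2, e3]; exact hzpj
      have g4 : Le (z * swap p b * swap p b) v := by
        rw [mul_assoc, swap_mul_self, mul_one]; exact hzv
      have g5 := R.c1 (z * swap p b) (h0.trans hx1) p b j hpd hilj (by rw [e1, e2]; exact hz1)
        (by rw [e2, e3]; exact hzpj) g4 g3
      rw [mul_assoc z, swap_mul_self, mul_one] at g5
      have g6 : Le (z * swap p j) v := by
        rcases g5 with g5 | g5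
        · exact absurd g5 hns
        · exact g5
      have hxj : x j = z j := hpost j hilj
      have g7 : Le (x * swap p b) (z * swap p j) := by
        intro P Q
        have r1 := rk_swap x hpd hxpi P Q
        have r2 := rk_swap (z * swap p b) hpd (by rw [e1, e2]; exact hz1) P Q
        have r3 := rk_swap z hpj hzpj P Q
        have r4 := hx1 P Q
        rw [mul_assoc z, swap_mul_self, mul_one, e1, e2] at r2
        rw [hxpz] at r1
        have r5 : (x b : ℕ) < x j := hx
        rw [hxj] at r5
        unfold ind at *
        split_ifs at * <;> omega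
      have htx : rk x j t = rk z j t :=
        rk_congr' (fun c hc => hpost c (by rw [Fin.lt_def]; omega)) t
      have ht3 : t ≤ x b := by
        by_contra hcon
        have := hxs' t (by omega) (by rw [hxj]; exact ht2)
        omega
      exact ⟨p, t, hpd, hxpi, g7.trans g6, by rw [hxpz]; exact ht1, ht3, by rw [htx, htz]⟩

end Pool.Agent.H25.Zir
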