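import Pool.Agent.H25.Zir.Off
import Pool.Agent.H25.Zir.Len

/-!
# Word length and Bruhat order of the symmetric group
-/

namespace Pool.Agent.H25.Zir

open Equiv Finset

variable {n m : ℕ}

theorem left_swap (w : Perm (Fin n)) (i j : Fin n) :
    swap i j * w = w * swap (w⁻¹ i) (w⁻¹ j) := by
  have := Equiv.mul_swap_eq_swap_mul w (w⁻¹ i) (w⁻¹ j)
  rw [this]
  simp

theorem lt_of_len_lt {y : Perm (Fin n)} {a b : Fin n} (hab : a < b)
    (h : len y < len (y * swap a b)) : y a < y b := by
  by_contra hcon
  have h1 : y b < y a := lt_of_le_of_ne (not_lt.mp hcon) (fun h => hab.ne (y.injective h.symm))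
  have h2 := len_swap_lt (y := y * swap a b) hab (by simpa using h1)
  rw [mul_assoc, swap_mul_self, mul_one] at h2
  omega

theorem len_swap_gt {y : Perm (Fin n)} {a b : Fin n} (hab : a < b) (hy : y b < y a) :
    len (y * swap a b) < len y := by
  have h2 := len_swap_lt (y := y * swap a b) hab (by simpa using hy)
  rw [mul_assoc, swap_mul_self, mul_one] at h2
  exact h2

/-- left multiplication by an adjacent transposition, ascent -/
theorem len_adj_up {w : Perm (Fin n)} {i j : Fin n} (hij : (j : ℕ) = i + 1)
    (h : w⁻¹ i < w⁻¹ j) : len (swap i j * w) = len w + 1 := by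
  rw [left_swap]
  have e1 : w (w⁻¹ i) = i := by simp
  have e2 : w (w⁻¹ j) = j := by simp
  apply len_swap_cov h
  · rw [e1, e2, Fin.lt_def]; omega
  · intro c _ _
    rw [e1, e2]
    rintro ⟨h1, h2⟩
    rw [Fin.lt_def] at h1 h2
    omega

theorem len_adj_down {w : Perm (Fin n)} {i j : Fin n} (hij : (j : ℕ) = i + 1)
    (h : w⁻¹ j < w⁻¹ i) : len (swap i j * w) + 1 = len w := by
  have h1 : (swap i j * w)⁻¹ i < (swap i j * w)⁻¹ j := by
    simpa [mul_inv_rev, Perm.mul_apply] using h
  have h2 := len_adj_up (w := swap i j * w) hij h1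
  rw [← mul_assoc, swap_mul_self, one_mul] at h2
  omega

theorem len_one : len (1 : Perm (Fin n)) = 0 := by
  unfold len
  rw [Finset.card_eq_zero, Finset.filter_eq_empty_iff]
  rintro ⟨a, b⟩ _ ⟨h1, h2⟩
  exact lt_asymm h1 h2

theorem eq_one_of_no_descent (w : Perm (Fin (m + 1)))
    (h : ∀ i : Fin m, w⁻¹ i.castSucc < w⁻¹ i.succ) : w = 1 := by
  have h1 : StrictMono (w⁻¹ : Perm (Fin (m + 1))) := Fin.strictMono_iff_lt_succ.mpr h
  have h2 : w⁻¹ = 1 := by
    ext x
    have := (Subsingleton.elim (h1.orderIsoOfSurjective _ (w⁻¹ : Perm (Fin (m + 1))).surjective)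
      (OrderIso.refl (Fin (m + 1))))
    have h3 := congrArg (fun f : Fin (m + 1) ≃o Fin (m + 1) => f x) this
    simpa using congrArg Fin.val h3
  simpa using h2

theorem len_le_length : ∀ l : List (Fin m), len (l.map (adj m)).prod ≤ l.length := by
  intro l
  induction l with
  | nil => simp [len_one]
  | cons i l ih =>
    simp only [List.map_cons, List.prod_cons, List.length_cons]
    set w := (l.map (adj m)).prod with hw
    have hij : ((i.succ : Fin (m + 1)) : ℕ) = (i.castSucc : Fin (m + 1)) + 1 := by simp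
    rcases lt_trichotomy (w⁻¹ i.castSucc) (w⁻¹ i.succ) with h | h | h
    · have := len_adj_up hij h
      unfold adj; omega
    · exact absurd (w⁻¹.injective h) (by simp [Fin.ext_iff])
    · have := len_adj_down hij h
      unfold adj; omega

theorem exists_word : ∀ k : ℕ, ∀ w : Perm (Fin (m + 1)), len w = k →
    ∃ l : List (Fin m), l.length = k ∧ (l.map (adj m)).prod = w := by
  intro k
  induction k with
  | zero =>
    intro w hw
    refine ⟨[], rfl, ?_⟩
    simp only [List.map_nil, List.prod_nil]
    symm
    apply eq_one_of_no_descent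
    intro i
    by_contra hcon
    have hij : ((i.succ : Fin (m + 1)) : ℕ) = (i.castSucc : Fin (m + 1)) + 1 := by simp
    have h1 : w⁻¹ i.succ < w⁻¹ i.castSucc :=
      lt_of_le_of_ne (not_lt.mp hcon) (fun h => absurd (w⁻¹.injective h) (by simp [Fin.ext_iff]))
    have := len_adj_down hij h1
    omega
  | succ k ih =>
    intro w hw
    obtain ⟨i, hi⟩ : ∃ i : Fin m, w⁻¹ i.succ < w⁻¹ i.castSucc := by
      by_contra hcon
      push Not at hcon
      have : w = 1 := eq_one_of_no_descent w (fun i =>
        lt_of_le_of_ne (hcon i) (fun h => absurd (w⁻¹.injective h) (by simp [Fin.ext_iff])))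
      rw [this, len_one] at hw
      omega
    have hij : ((i.succ : Fin (m + 1)) : ℕ) = (i.castSucc : Fin (m + 1)) + 1 := by simp
    have h1 := len_adj_down hij hi
    obtain ⟨l, hl, hp⟩ := ih (swap i.castSucc i.succ * w) (by omega)
    refine ⟨i :: l, by simp [hl], ?_⟩
    simp only [List.map_cons, List.prod_cons]
    rw [hp]
    unfold adj
    rw [← mul_assoc, swap_mul_self, one_mul]

theorem wlen_eq (w : Perm (Fin (m + 1))) : wlen (adj m) w = len w := by
  unfold wlen
  apply le_antisymm
  · obtain ⟨l, hl, hp⟩ := exists_word _ w rfl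
    exact Nat.sInf_le ⟨l, hl, hp⟩
  · apply le_csInf
    · obtain ⟨l, hl, hp⟩ := exists_word _ w rfl
      exact ⟨_, l, hl, hp⟩
    · rintro k ⟨l, hl, hp⟩
      have := len_le_length l
      rw [hp] at this
      omega

theorem isRefl_swap {a b : Fin (m + 1)} (hab : a ≠ b) : IsRefl (adj m) (swap a b) := by
  -- conjugate any transposition to an adjacent one
  have hm : 0 < m := by
    rcases Nat.eq_zero_or_pos m with h | h
    · exfalso
      have h1 := a.is_lt
      have h2 := b.is_lt
      exact hab (Fin.ext (by omega))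
    · exact h
  let i : Fin m := ⟨0, hm⟩
  have hne : (i.castSucc : Fin (m + 1)) ≠ i.succ := by simp [Fin.ext_iff]
  obtain ⟨g, hg⟩ := isConj_iff.mp (Equiv.Perm.isConj_swap hne hab)
  refine ⟨g, i, ?_⟩
  unfold adj
  exact hg.symm

theorem exists_swap_of_isRefl {t : Perm (Fin (m + 1))} (h : IsRefl (adj m) t) :
    ∃ a b, a ≠ b ∧ t = swap a b := by
  obtain ⟨g, i, rfl⟩ := h
  refine ⟨g i.castSucc, g i.succ, ?_, ?_⟩
  · intro h; exact absurd (g.injective h) (by simp [Fin.ext_iff])
  · unfold adj
    rw [Equiv.mul_swap_eq_swap_mul, mul_assoc, mul_inv_cancel, mul_one]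

theorem bruhat_iff {u w : Perm (Fin (m + 1))} : Bruhat (adj m) u w ↔ Le u w := by
  constructor
  · intro h
    induction h with
    | refl => exact Le.refl u
    | tail _ hstep ih =>
      rename_i x y _
      obtain ⟨t, ht, rfl, hl⟩ := hstep
      obtain ⟨a, b, hab, rfl⟩ := exists_swap_of_isRefl ht
      rw [wlen_eq, wlen_eq, left_swap] at hl
      rw [left_swap]
      apply ih.trans
      have key : ∀ c d : Fin (m + 1), c < d → len x < len (x * swap c d) → Le x (x * swap c d) :=
        fun c d hcd h => le_swap x hcd (lt_of_len_lt hcd h)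
      rcases lt_or_gt_of_ne (fun h => hab (x⁻¹.injective h) : x⁻¹ a ≠ x⁻¹ b) with h | h
      · exact key _ _ h hl
      · rw [swap_comm] at hl ⊢
        exact key _ _ h hl
  · -- chains
    have key : ∀ k : ℕ, ∀ u : Perm (Fin (m + 1)), len w - len u = k → Le u w →
        Bruhat (adj m) u w := by
      intro k
      induction k using Nat.strong_induction_on with
      | _ k ih =>
        intro u hk h
        by_cases he : u = w
        · rw [he]; exact Relation.ReflTransGen.refl
        obtain ⟨a, b, hab, hy, -, -, -, hle⟩ := exists_up h he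
        have h1 := len_swap_lt hab hy
        have h2 := len_lt h he
        have h3 := ih (len w - len (u * swap a b)) (by omega) _ rfl hle
        refine Relation.ReflTransGen.head ⟨swap (u a) (u b), ?_, ?_, ?_⟩ h3
        · exact isRefl_swap (fun h => hab.ne (u.injective h))
        · rw [Equiv.mul_swap_eq_swap_mul]
        · rw [wlen_eq, wlen_eq]; exact h1
    intro h
    exact key _ u rfl h

end Pool.Agent.H25.Zir
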